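import Pool.Agent.TAR.Defs

/-! FREE4: the free group of rank two has a paradoxical decomposition with four pieces. -/

namespace TAR

/-- words with the first letter `x` -/
def FREE4W (x : Fin 2) (s : Bool) : Set (FreeGroup (Fin 2)) :=
  {g | g.toWord.head? = some (x, s)}

theorem FREE4_key (x : Fin 2) (g : FreeGroup (Fin 2)) (h : g.toWord.head? ≠ some (x, true)) :
    (FreeGroup.of x)⁻¹ * g ∈ FREE4W x false := by
  have h1 : (FreeGroup.of x)⁻¹ * g = FreeGroup.mk ((x, false) :: g.toWord) := by
    conv_lhs => rw [← FreeGroup.mk_toWord (x := g)]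
    rfl
  show ((FreeGroup.of x)⁻¹ * g).toWord.head? = some (x, false)
  rw [h1, FreeGroup.toWord_mk, FreeGroup.reduce.cons, FreeGroup.reduce_toWord]
  rcases hw : g.toWord with _ | ⟨⟨y, s⟩, tl⟩
  · rfl
  · rw [hw] at h
    dsimp only
    rw [if_neg]
    · rfl
    · rintro ⟨h2, h3⟩
      apply h
      subst h2
      cases s
      · simp at h3
      · rfl

theorem FREE4_mem (x : Fin 2) (g : FreeGroup (Fin 2)) :
    g ∈ FREE4W x true ∨ ∃ g' ∈ FREE4W x false, FreeGroup.of x * g' = g := by
  by_cases h : g.toWord.head? = some (x, true)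
  · exact Or.inl h
  · exact Or.inr ⟨_, FREE4_key x g h, by simp⟩

theorem FREE4_disj {x y : Fin 2} {s t : Bool} (h : (x, s) ≠ (y, t)) :
    Disjoint (FREE4W x s) (FREE4W y t) := by
  rw [Set.disjoint_left]
  intro g hg hg'
  apply h
  have h1 : g.toWord.head? = some (x, s) := hg
  have h2 : g.toWord.head? = some (y, t) := hg'
  rw [h1] at h2
  exact Option.some.inj h2

theorem FREE4_one (x : Fin 2) (s : Bool) : (1 : FreeGroup (Fin 2)) ∉ FREE4W x s := by
  intro h
  have h1 : (1 : FreeGroup (Fin 2)).toWord.head? = some (x, s) := h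
  simp at h1

theorem FREE4_of (x : Fin 2) : FreeGroup.of x ∈ FREE4W x true := by
  show (FreeGroup.of x).toWord.head? = some (x, true)
  simp

theorem FREE4_inv (x : Fin 2) : (FreeGroup.of x)⁻¹ ∈ FREE4W x false := by
  have h := FREE4_key x 1 (by simp)
  rwa [mul_one] at h

theorem free_paradox : HasParadox (FreeGroup (Fin 2)) 2 2 := by
  refine ⟨![FREE4W 0 true ∪ {1}, FREE4W 0 false], ![FREE4W 1 true, FREE4W 1 false],
    ![1, FreeGroup.of 0], ![1, FreeGroup.of 1], ?_, ?_, ?_, ?_, ?_, ?_, ?_, ?_⟩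
  · intro i
    fin_cases i
    · exact ⟨1, Or.inr rfl⟩
    · exact ⟨_, FREE4_inv 0⟩
  · intro i
    fin_cases i
    · exact ⟨_, FREE4_of 1⟩
    · exact ⟨_, FREE4_inv 1⟩
  · have h1 : Disjoint (FREE4W 0 true ∪ {1}) (FREE4W 0 false) := by
      rw [Set.disjoint_union_left]
      exact ⟨FREE4_disj (by simp), by simpa using FREE4_one 0 false⟩
    intro i j hij
    fin_cases i <;> fin_cases j
    · exact absurd rfl hij
    · exact h1
    · exact h1.symm
    · exact absurd rfl hij
  · have h1 : Disjoint (FREE4W 1 true) (FREE4W 1 false) := FREE4_disj (by simp)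
    intro i j hij
    fin_cases i <;> fin_cases j
    · exact absurd rfl hij
    · exact h1
    · exact h1.symm
    · exact absurd rfl hij
  · have h1 : ∀ s, Disjoint (FREE4W 0 true ∪ {1}) (FREE4W 1 s) := by
      intro s
      rw [Set.disjoint_union_left]
      exact ⟨FREE4_disj (by simp), by simpa using FREE4_one 1 s⟩
    intro i j
    fin_cases i <;> fin_cases j
    · exact h1 true
    · exact h1 false
    · exact FREE4_disj (by simp)
    · exact FREE4_disj (by simp)
  · rw [Set.eq_univ_iff_forall]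
    intro g
    rcases hw : g.toWord with _ | ⟨⟨y, s⟩, tl⟩
    · left
      rw [Set.mem_iUnion]
      refine ⟨0, Or.inr ?_⟩
      have : g = 1 := FreeGroup.toWord_eq_nil_iff.1 hw
      exact this
    · have hy : y = 0 ∨ y = 1 := by omega
      have hg : g ∈ FREE4W y s := by
        show g.toWord.head? = some (y, s)
        rw [hw]
        rfl
      rcases hy with rfl | rfl
      · left
        rw [Set.mem_iUnion]
        cases s
        · exact ⟨1, hg⟩
        · exact ⟨0, Or.inl hg⟩
      · right
        rw [Set.mem_iUnion]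
        cases s
        · exact ⟨1, hg⟩
        · exact ⟨0, hg⟩
  · rw [Set.eq_univ_iff_forall]
    intro g
    rw [Set.mem_iUnion]
    rcases FREE4_mem 0 g with h | ⟨g', h, h'⟩
    · exact ⟨0, g, Or.inl h, one_mul g⟩
    · exact ⟨1, g', h, h'⟩
  · rw [Set.eq_univ_iff_forall]
    intro g
    rw [Set.mem_iUnion]
    rcases FREE4_mem 1 g with h | ⟨g', h, h'⟩
    · exact ⟨0, g, h, one_mul g⟩
    · exact ⟨1, g', h, h'⟩

end TAR
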