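import Pool.Agent.TAR.Defs

/-! INJ: the injection from Hall's theorem. -/

namespace TAR

variable {r : ℕ}

/-- Hall's theorem gives an injection -/
theorem exists_inj {G : Type} [Group G] [DecidableEq G] (x y : Fin (r + 1) → G)
    (h : GHset x y) :
    ∃ f : G ⊕ G → G, Function.Injective f ∧
      (∀ g, f (Sum.inl g) = g ∨ ∃ i, f (Sum.inl g) = x i * g) ∧
      (∀ g, f (Sum.inr g) = g ∨ ∃ i, f (Sum.inr g) = y i * g) := by
  classical
  let t : G ⊕ G → Finset G := fun p =>
    Sum.elim (fun g => insert g (Finset.univ.image fun i => x i * g))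
      (fun g => insert g (Finset.univ.image fun i => y i * g)) p
  have hall : ∀ s : Finset (G ⊕ G), s.card ≤ (s.biUnion t).card := by
    intro s
    have h1 := h s.toLeft s.toRight
    rw [Finset.card_toLeft_add_card_toRight] at h1
    refine h1.trans (Finset.card_le_card ?_)
    intro z hz
    simp only [Finset.mem_union, Finset.mem_biUnion, Finset.mem_image, Finset.mem_univ,
      true_and, Finset.mem_toLeft, Finset.mem_toRight] at hz
    simp only [Finset.mem_biUnion]
    rcases hz with ((hz | hz) | ⟨i, g, hg, rfl⟩) | ⟨i, g, hg, rfl⟩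
    · exact ⟨Sum.inl z, hz, by simp [t]⟩
    · exact ⟨Sum.inr z, hz, by simp [t]⟩
    · exact ⟨Sum.inl g, hg, by simp [t]⟩
    · exact ⟨Sum.inr g, hg, by simp [t]⟩
  obtain ⟨f, hf, hft⟩ := (Finset.all_card_le_biUnion_card_iff_exists_injective t).1 hall
  refine ⟨f, hf, ?_, ?_⟩
  · intro g
    have h1 := hft (Sum.inl g)
    simp only [t, Sum.elim_inl, Finset.mem_insert, Finset.mem_image, Finset.mem_univ,
      true_and] at h1
    rcases h1 with h1 | ⟨i, hi⟩
    · exact Or.inl h1
    · exact Or.inr ⟨i, hi.symm⟩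
  · intro g
    have h1 := hft (Sum.inr g)
    simp only [t, Sum.elim_inr, Finset.mem_insert, Finset.mem_image, Finset.mem_univ,
      true_and] at h1
    rcases h1 with h1 | ⟨i, hi⟩
    · exact Or.inl h1
    · exact Or.inr ⟨i, hi.symm⟩

end TAR
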