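import Pool.Agent.TAR.LB
import Pool.Agent.TAR.INJ

/-! PAR: the paradoxical decomposition from the Hall inequality. -/

namespace TAR

variable {r : ℕ}

/-- one half of the decomposition: the pieces given by an injection `f` which moves each
point by one of `r + 2` elements, and which misses a point -/
theorem PAR_half {G : Type} [Group G] (x : Fin (r + 1) → G) (hR : RFin G r)
    (f : G → G) (hf : Function.Injective f) (hx : ∀ g, f g = g ∨ ∃ i, f g = x i * g)
    (q : G) (hq : q ∉ Set.range f) :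
    ∃ (A : Fin (r + 2) → Set G) (a : Fin (r + 2) → G),
      (∀ i, (A i).Nonempty) ∧ (∀ i i', i ≠ i' → Disjoint (A i) (A i')) ∧
      (⋃ i, A i) = Set.range f ∧
      (⋃ i, (fun g => a i * g) '' A i) = Set.univ := by
  classical
  let s : Fin (r + 2) → G := Fin.cons 1 x
  have hs : ∀ g, ∃ i, f g = s i * g := by
    intro g
    rcases hx g with h1 | ⟨i, h1⟩
    · exact ⟨0, by simp [s, h1]⟩
    · exact ⟨i.succ, by simp [s, h1]⟩
  choose c hc using hs
  let A : Fin (r + 2) → Set G := fun i => {z | ∃ g, c g = i ∧ z = f g}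
  let a : Fin (r + 2) → G := fun i => (s i)⁻¹
  have hdis : ∀ i i', i ≠ i' → Disjoint (A i) (A i') := by
    intro i i' hne
    rw [Set.disjoint_left]
    rintro z ⟨g, hg, rfl⟩ ⟨g', hg', hfe⟩
    have := hf hfe
    subst this
    exact hne (hg.symm.trans hg')
  have hmem : ∀ g, g ∈ (fun z => a (c g) * z) '' A (c g) := by
    intro g
    refine ⟨f g, ⟨g, rfl, rfl⟩, ?_⟩
    simp only [a]
    rw [hc g]
    group
  refine ⟨A, a, ?_, hdis, ?_, ?_⟩
  · intro i
    by_contra hemp
    have hcov : (⋃ j : Fin (r + 1), (fun g => a (i.succAbove j) * g) '' A (i.succAbove j))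
        = Set.univ := by
      rw [Set.eq_univ_iff_forall]
      intro g
      have hne : c g ≠ i := by
        intro h1
        exact hemp ⟨f g, g, h1, rfl⟩
      obtain ⟨j, hj⟩ := Fin.exists_succAbove_eq hne
      refine Set.mem_iUnion.2 ⟨j, ?_⟩
      rw [hj]
      exact hmem g
    have hU := lb_half hR le_rfl (fun j => A (i.succAbove j)) (fun j => a (i.succAbove j))
      (fun j j' hjj => hdis _ _ (fun h1 => hjj (Fin.succAbove_right_injective h1))) hcov
    have h1 : q ∈ ⋃ j, A (i.succAbove j) := hU ▸ Set.mem_univ q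
    obtain ⟨j, g, -, hg⟩ := Set.mem_iUnion.1 h1
    exact hq ⟨g, hg.symm⟩
  · ext z
    simp only [Set.mem_iUnion, Set.mem_range]
    constructor
    · rintro ⟨i, g, -, rfl⟩
      exact ⟨g, rfl⟩
    · rintro ⟨g, rfl⟩
      exact ⟨c g, g, rfl, rfl⟩
  · rw [Set.eq_univ_iff_forall]
    intro g
    exact Set.mem_iUnion.2 ⟨c g, hmem g⟩

theorem par {G : Type} [Group G] [DecidableEq G] (x y : Fin (r + 1) → G)
    (h : GHset x y) (hR : RFin G r) : HasParadox G (r + 2) (r + 2) := by
  classical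
  obtain ⟨f, hf, hfx, hfy⟩ := exists_inj x y h
  have hq1 : f (Sum.inr 1) ∉ Set.range fun g => f (Sum.inl g) := by
    rintro ⟨g, hg⟩
    have := hf hg
    simp at this
  have hq2 : f (Sum.inl 1) ∉ Set.range fun g => f (Sum.inr g) := by
    rintro ⟨g, hg⟩
    have := hf hg
    simp at this
  obtain ⟨A, a, hA1, hA2, hA3, hA4⟩ := PAR_half x hR (fun g => f (Sum.inl g))
    (fun g g' hg => Sum.inl_injective (hf hg)) hfx _ hq1
  obtain ⟨B, b, hB1, hB2, hB3, hB4⟩ := PAR_half y hR (fun g => f (Sum.inr g))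
    (fun g g' hg => Sum.inr_injective (hf hg)) hfy _ hq2
  have hAsub : ∀ i, A i ⊆ Set.range fun g => f (Sum.inl g) := by
    intro i z hz
    rw [← hA3]
    exact Set.mem_iUnion.2 ⟨i, hz⟩
  have hBsub : ∀ i, B i ⊆ Set.range fun g => f (Sum.inr g) := by
    intro i z hz
    rw [← hB3]
    exact Set.mem_iUnion.2 ⟨i, hz⟩
  let C : Set G := (Set.range f)ᶜ
  have hCA : ∀ i, Disjoint (A i) C := by
    intro i
    rw [Set.disjoint_left]
    intro z hz hzC
    obtain ⟨g, hg⟩ := hAsub i hz
    exact hzC ⟨_, hg⟩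
  have hCB : ∀ i, Disjoint (B i) C := by
    intro i
    rw [Set.disjoint_left]
    intro z hz hzC
    obtain ⟨g, hg⟩ := hBsub i hz
    exact hzC ⟨_, hg⟩
  have hAB : ∀ i j, Disjoint (A i) (B j) := by
    intro i j
    rw [Set.disjoint_left]
    intro z hz hz'
    obtain ⟨g, hg⟩ := hAsub i hz
    obtain ⟨g', hg'⟩ := hBsub j hz'
    have h1 : f (Sum.inl g) = f (Sum.inr g') := hg.trans hg'.symm
    have := hf h1
    simp at this
  let A' : Fin (r + 2) → Set G := fun i => if i = 0 then A i ∪ C else A i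
  have hA'sub : ∀ i, A i ⊆ A' i := by
    intro i
    by_cases h0 : i = 0
    · simp only [A', if_pos h0]
      exact Set.subset_union_left
    · simp only [A', if_neg h0]
      exact subset_rfl
  have hA'mem : ∀ i z, z ∈ A' i → z ∈ A i ∨ (i = 0 ∧ z ∈ C) := by
    intro i z hz
    by_cases h0 : i = 0
    · simp only [A', if_pos h0] at hz
      rcases hz with hz | hz
      · exact Or.inl hz
      · exact Or.inr ⟨h0, hz⟩
    · simp only [A', if_neg h0] at hz
      exact Or.inl hz
  refine ⟨A', B, a, b, fun i => (hA1 i).mono (hA'sub i), hB1, ?_, hB2, ?_, ?_, ?_, hB4⟩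
  · intro i i' hne
    rw [Set.disjoint_left]
    intro z hz hz'
    rcases hA'mem i z hz with h1 | ⟨h0, h1⟩
    · rcases hA'mem i' z hz' with h2 | ⟨-, h2⟩
      · exact Set.disjoint_left.1 (hA2 i i' hne) h1 h2
      · exact Set.disjoint_left.1 (hCA i) h1 h2
    · rcases hA'mem i' z hz' with h2 | ⟨h0', -⟩
      · exact Set.disjoint_left.1 (hCA i') h2 h1
      · exact hne (h0.trans h0'.symm)
  · intro i j
    rw [Set.disjoint_left]
    intro z hz hz'
    rcases hA'mem i z hz with h1 | ⟨-, h1⟩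
    · exact Set.disjoint_left.1 (hAB i j) h1 hz'
    · exact Set.disjoint_left.1 (hCB j) hz' h1
  · rw [Set.eq_univ_iff_forall]
    intro z
    by_cases hz : z ∈ Set.range f
    · obtain ⟨p, rfl⟩ := hz
      rcases p with g | g
      · left
        have h1 : f (Sum.inl g) ∈ ⋃ i, A i := by
          rw [hA3]
          exact ⟨g, rfl⟩
        obtain ⟨i, hi⟩ := Set.mem_iUnion.1 h1
        exact Set.mem_iUnion.2 ⟨i, hA'sub i hi⟩
      · right
        rw [hB3]
        exact ⟨g, rfl⟩
    · left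
      refine Set.mem_iUnion.2 ⟨0, ?_⟩
      simp only [A', if_true]
      exact Or.inr hz
  · rw [Set.eq_univ_iff_forall]
    intro z
    have h1 : z ∈ ⋃ i, (fun g => a i * g) '' A i := hA4 ▸ Set.mem_univ z
    obtain ⟨i, w, hw, rfl⟩ := Set.mem_iUnion.1 h1
    exact Set.mem_iUnion.2 ⟨i, w, hA'sub i hw, rfl⟩

end TAR
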