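import Pool.Agent.TAR.GRP
import Pool.Agent.TAR.PAR
import Pool.Agent.TAR.FREE4

/-! MAIN: even Tarski numbers. -/

namespace TAR

/-- for every `r ≥ 1` there is a group generated by `2 r + 2` elements all of whose
subgroups generated by `r` elements are finite and whose Tarski number is `2 r + 4` -/
theorem family (r : ℕ) (hr : 1 ≤ r) :
    ∃ (G : Type) (_ : Group G), (∃ s : Fin (2 * r + 2) → G,
      Subgroup.closure (Set.range s) = ⊤) ∧ RFin G r ∧ HasTarskiNumber G (2 * r + 4) := by
  obtain ⟨G, hG, hdec, x, y, hgen, hR, hset⟩ := exists_group hr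
  refine ⟨G, hG, ?_, hR, ⟨r + 2, r + 2, by omega, by omega, by omega, par x y hset hR⟩, ?_⟩
  · have e : Fin (2 * r + 2) ≃ Fin (r + 1) ⊕ Fin (r + 1) :=
      (finCongr (by omega : 2 * r + 2 = (r + 1) + (r + 1))).trans finSumFinEquiv.symm
    refine ⟨Sum.elim x y ∘ e, ?_⟩
    rw [Set.range_comp, e.surjective.range_eq, Set.image_univ, Set.Sum.elim_range, hgen]
  · intro m n _ _ hp
    have h := lb hR hp
    omega

theorem MAIN_four (G : Type) [Group G] {k : ℕ} (h : HasTarskiNumber G k) : 4 ≤ k := by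
  obtain ⟨⟨m, n, _, _, hk, hp⟩, _⟩ := h
  have h2 := lb (rfin_zero G) hp
  omega

theorem even_tarski (k : ℕ) (hk : Even k) :
    (∃ (G : Type) (_ : Group G), Group.FG G ∧ HasTarskiNumber G k) ↔ 4 ≤ k := by
  constructor
  · rintro ⟨G, hG, _, h⟩
    exact MAIN_four G h
  · intro h4
    rcases Nat.eq_or_lt_of_le h4 with h | h
    · subst h
      refine ⟨FreeGroup (Fin 2), inferInstance, ?_, ⟨2, 2, by omega, by omega, by omega,
        free_paradox⟩, ?_⟩
      · rw [Group.fg_iff]
        refine ⟨Set.range FreeGroup.of, FreeGroup.closure_range_of (Fin 2), Set.finite_range _⟩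
      · intro m n _ _ hp
        have h2 := lb (rfin_zero _) hp
        omega
    · obtain ⟨j, hj⟩ := hk
      obtain ⟨G, hG, ⟨s, hs⟩, _, hT⟩ := family (j - 2) (by omega)
      refine ⟨G, hG, Group.fg_iff.mpr ⟨_, hs, Set.finite_range _⟩, ?_⟩
      have : 2 * (j - 2) + 4 = k := by omega
      rwa [this] at hT

end TAR
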