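import Pool.Agent.TAR.LBH

/-! LB: the lower bound. -/

namespace TAR

theorem lb {G : Type} [Group G] {r m n : ℕ} (h : RFin G r) (hp : HasParadox G m n) :
    r + 2 ≤ m ∧ r + 2 ≤ n := by
  obtain ⟨A, B, a, b, -, -, hAd, hBd, hAB, -, hA, hB⟩ := hp
  have hAex : ∃ i, (A i).Nonempty := by
    have h1 : (1 : G) ∈ ⋃ i, (fun g => a i * g) '' A i := hA ▸ Set.mem_univ 1
    simp only [Set.mem_iUnion, Set.mem_image] at h1
    obtain ⟨i, x, hx, -⟩ := h1
    exact ⟨i, x, hx⟩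
  have hBex : ∃ j, (B j).Nonempty := by
    have h1 : (1 : G) ∈ ⋃ i, (fun g => b i * g) '' B i := hB ▸ Set.mem_univ 1
    simp only [Set.mem_iUnion, Set.mem_image] at h1
    obtain ⟨i, x, hx, -⟩ := h1
    exact ⟨i, x, hx⟩
  constructor
  · by_contra hcon
    have hm : m ≤ r + 1 := by omega
    have hU := lb_half h hm A a hAd hA
    obtain ⟨j, x, hx⟩ := hBex
    have h1 : x ∈ ⋃ i, A i := hU ▸ Set.mem_univ x
    obtain ⟨i, hi⟩ := Set.mem_iUnion.1 h1
    exact Set.disjoint_left.1 (hAB i j) hi hx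
  · by_contra hcon
    have hm : n ≤ r + 1 := by omega
    have hU := lb_half h hm B b hBd hB
    obtain ⟨i, x, hx⟩ := hAex
    have h1 : x ∈ ⋃ i, B i := hU ▸ Set.mem_univ x
    obtain ⟨j, hj⟩ := Set.mem_iUnion.1 h1
    exact Set.disjoint_left.1 (hAB i j) hx hj

theorem rfin_zero (G : Type) [Group G] : RFin G 0 := by
  intro s
  have h1 : Set.range s = ∅ := Set.range_eq_empty s
  rw [h1, Subgroup.closure_empty]
  infer_instance

end TAR
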