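import Pool.Agent.TAR.QUO

/-! DIMX: dimensions of `X V` and `Y V`. -/

open Module

namespace TAR

variable {r : ℕ}

instance finiteDimensional_mul (V W : Submodule K (F r)) [FiniteDimensional K V]
    [FiniteDimensional K W] : FiniteDimensional K (V * W : Submodule K (F r)) := by
  rw [← Submodule.fg_iff_finiteDimensional]
  exact Submodule.FG.mul ((Submodule.fg_iff_finiteDimensional V).mpr inferInstance)
    ((Submodule.fg_iff_finiteDimensional W).mpr inferInstance)

private noncomputable def dimxL {I : Type} [Fintype I] (ι : I → Al r)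
    (V : Submodule K (F r)) : (I → V) →ₗ[K] F r :=
  ∑ i, (LinearMap.mulLeft K (wd [ι i] : F r)) ∘ₗ V.subtype ∘ₗ LinearMap.proj i

private theorem dimxL_apply {I : Type} [Fintype I] (ι : I → Al r) (V : Submodule K (F r))
    (v : I → V) : dimxL ι V v = ∑ i, wd [ι i] * (v i : F r) := by
  simp [dimxL, LinearMap.sum_apply]

private theorem dimx_lq_letter (a b : Al r) (z : F r) :
    lq a (wd [b] * z) = if a = b then z else 0 := by
  rw [lq_mul_of_nc a (NC_wd [b] (by simp)) z]
  have h1 : lq a (wd [b] : F r) = if a = b then wd [] else 0 := lq_wd_cons a b []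
  rw [h1]
  split_ifs
  · rw [wd_nil, one_mul]
  · rw [zero_mul]

private theorem dimxL_lq {I : Type} [Fintype I] {ι : I → Al r} (hι : Function.Injective ι)
    (V : Submodule K (F r)) (v : I → V) (j : I) : lq (ι j) (dimxL ι V v) = v j := by
  classical
  rw [dimxL_apply, map_sum, Finset.sum_eq_single j]
  · rw [dimx_lq_letter, if_pos rfl]
  · intro i _ hij
    rw [dimx_lq_letter, if_neg]
    intro h
    exact hij (hι h).symm
  · intro h
    exact absurd (Finset.mem_univ j) h

private theorem dimxL_lq_zero {I : Type} [Fintype I] {ι : I → Al r} {a : Al r}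
    (ha : ∀ i, a ≠ ι i) (V : Submodule K (F r)) (v : I → V) : lq a (dimxL ι V v) = 0 := by
  rw [dimxL_apply, map_sum]
  refine Finset.sum_eq_zero fun i _ => ?_
  rw [dimx_lq_letter, if_neg (ha i)]

private theorem dimxL_inj {I : Type} [Fintype I] {ι : I → Al r} (hι : Function.Injective ι)
    (V : Submodule K (F r)) : Function.Injective (dimxL ι V) := by
  intro v w h
  funext j
  apply Subtype.ext
  rw [← dimxL_lq hι V v j, ← dimxL_lq hι V w j, h]

private theorem dimxL_range {I : Type} [Fintype I] (ι : I → Al r) (V : Submodule K (F r)) :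
    LinearMap.range (dimxL ι V) =
      Submodule.span K (Set.range fun i : I => (wd [ι i] : F r)) * V := by
  classical
  apply le_antisymm
  · rintro p ⟨v, rfl⟩
    rw [dimxL_apply]
    refine Submodule.sum_mem _ fun i _ => ?_
    exact Submodule.mul_mem_mul (Submodule.subset_span ⟨i, rfl⟩) (v i).2
  · rw [Submodule.mul_le]
    intro m hm n hn
    refine Submodule.span_induction (p := fun m _ => m * n ∈ LinearMap.range (dimxL ι V))
      ?_ ?_ ?_ ?_ hm
    · rintro _ ⟨i, rfl⟩
      refine ⟨Pi.single i ⟨n, hn⟩, ?_⟩
      rw [dimxL_apply, Finset.sum_eq_single i]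
      · rw [Pi.single_eq_same]
      · intro j _ hji
        rw [Pi.single_eq_of_ne hji]
        simp
      · intro h
        exact absurd (Finset.mem_univ i) h
    · rw [zero_mul]
      exact Submodule.zero_mem _
    · intro x y _ _ hx hy
      rw [add_mul]
      exact Submodule.add_mem _ hx hy
    · intro c x _ hx
      rw [smul_mul_assoc]
      exact Submodule.smul_mem _ c hx

private theorem dimx_finrank {I : Type} [Fintype I] {ι : I → Al r} (hι : Function.Injective ι)
    (V : Submodule K (F r)) [FiniteDimensional K V] :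
    finrank K (Submodule.span K (Set.range fun i : I => (wd [ι i] : F r)) * V :
      Submodule K (F r)) = Fintype.card I * finrank K V := by
  rw [← dimxL_range, LinearMap.finrank_range_of_inj (dimxL_inj hι V), Module.finrank_pi_fintype,
    Finset.sum_const, Finset.card_univ, smul_eq_mul]

theorem finrank_XM_mul (V : Submodule K (F r)) [FiniteDimensional K V] :
    finrank K (XM r * V : Submodule K (F r)) = (r + 1) * finrank K V := by
  have h := dimx_finrank (ι := fun i : Fin (r + 1) => (Sum.inl i : Al r)) Sum.inl_injective V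
  rw [Fintype.card_fin] at h
  exact h

theorem finrank_YM_mul (V : Submodule K (F r)) [FiniteDimensional K V] :
    finrank K (YM r * V : Submodule K (F r)) = (r + 1) * finrank K V := by
  have h := dimx_finrank (ι := fun i : Fin (r + 1) => (Sum.inr i : Al r)) Sum.inr_injective V
  rw [Fintype.card_fin] at h
  exact h

theorem disjoint_XM_YM (V W : Submodule K (F r)) : Disjoint (XM r * V) (YM r * W) := by
  rw [Submodule.disjoint_def]
  intro p hp hq
  have h1 : p ∈ LinearMap.range (dimxL (fun i : Fin (r + 1) => (Sum.inl i : Al r)) V) := by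
    rw [dimxL_range]
    exact hp
  have h2 : p ∈ LinearMap.range (dimxL (fun i : Fin (r + 1) => (Sum.inr i : Al r)) W) := by
    rw [dimxL_range]
    exact hq
  obtain ⟨v, hv⟩ := h1
  obtain ⟨w, hw⟩ := h2
  have h3 : w = 0 := by
    funext j
    apply Subtype.ext
    rw [← dimxL_lq (ι := fun i : Fin (r + 1) => (Sum.inr i : Al r)) Sum.inr_injective W w j, hw,
      ← hv]
    exact dimxL_lq_zero (fun i h => by cases h) V v
  rw [← hw, h3, map_zero]

theorem finrank_XY (V W : Submodule K (F r)) [FiniteDimensional K V] [FiniteDimensional K W] :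
    finrank K (XM r * V ⊔ YM r * W : Submodule K (F r)) =
      (r + 1) * (finrank K V + finrank K W) := by
  have h := Submodule.finrank_sup_add_finrank_inf_eq (XM r * V) (YM r * W)
  rw [(disjoint_XM_YM V W).eq_bot, finrank_bot, add_zero, finrank_XM_mul, finrank_YM_mul] at h
  rw [h]
  ring

theorem finrank_Fd_one_mul (V : Submodule K (F r)) [FiniteDimensional K V] :
    finrank K (Fd r 1 * V : Submodule K (F r)) = 2 * (r + 1) * finrank K V := by
  have h := dimx_finrank (ι := fun a : Al r => a) Function.injective_id V
  have h1 : Fd r 1 = Submodule.span K (Set.range fun a : Al r => (wd [a] : F r)) := by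
    unfold Fd
    congr 1
    ext p
    constructor
    · rintro ⟨w, hw, rfl⟩
      obtain ⟨a, rfl⟩ := List.length_eq_one_iff.mp hw
      exact ⟨a, rfl⟩
    · rintro ⟨a, rfl⟩
      exact ⟨[a], rfl, rfl⟩
  rw [h1, h, Fintype.card_sum, Fintype.card_fin]
  ring

end TAR
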