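import Pool.Agent.TAR.WD

/-! GLUE: restriction, congruence and gluing of good families. -/

open Module

namespace TAR

variable {r : ℕ}

theorem H2.congr {P Q : ℕ → Submodule K (F r)} {n : ℕ} (hP : H2 r P n)
    (h0 : P n = Q n) (h1 : P (n + 1) = Q (n + 1)) (h2 : P (n + 2) = Q (n + 2)) :
    H2 r Q n := by
  intro V₁ V₂ W₁ W₂ hV₁ hV₂ hW₁ hW₂
  have h := hP V₁ V₂ W₁ W₂ hV₁ hV₂ hW₁ hW₂
  rwa [h0, h1, h2] at h

theorem Good.congr {R : Rels r} {b e : ℕ} {P Q : ℕ → Submodule K (F r)}
    (hP : Good r R b e P) (h : ∀ n, b ≤ n → n ≤ e → P n = Q n) : Good r R b e Q where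
  le n hb he := by
    rw [← h n hb he]
    exact hP.le n hb he
  closed n hb he := by
    rw [← h n hb (by omega), ← h (n + 1) (by omega) he]
    exact hP.closed n hb he
  h2 n hn hb he := (hP.h2 n hn hb he).congr (h n hb (by omega)) (h (n + 1) (by omega) (by omega))
    (h (n + 2) (by omega) he)
  rel p hp t hb he := by
    rw [← h ((t + 1) * p.1) (hb.trans (Nat.mul_le_mul_right _ (Nat.le_succ t))) he]
    exact hP.rel p hp t hb he

theorem Good.restrict {R : Rels r} {b e b' e' : ℕ} {P : ℕ → Submodule K (F r)}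
    (hP : Good r R b e P) (hb : b ≤ b') (he : e' ≤ e) : Good r R b' e' P where
  le n h1 h2 := hP.le n (hb.trans h1) (h2.trans he)
  closed n h1 h2 := hP.closed n (hb.trans h1) (h2.trans he)
  h2 n hn h1 h2 := hP.h2 n hn (hb.trans h1) (h2.trans he)
  rel p hp t h1 h2 := hP.rel p hp t (hb.trans h1) (h2.trans he)

theorem Good.mono_rels {R R' : Rels r} {b e : ℕ} {P : ℕ → Submodule K (F r)}
    (hP : Good r R b e P) (h : R' ⊆ R) : Good r R' b e P where
  le := hP.le
  closed := hP.closed
  h2 := hP.h2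
  rel p hp t h1 h2 := hP.rel p (h hp) t h1 h2

theorem Good.glue {R : Rels r} {b c e : ℕ} {P Q : ℕ → Submodule K (F r)}
    (hP : Good r R b c P) (hQ : Good r R c e Q) (hc : P c = Q c) (hev : Even c)
    (hdiv : ∀ p ∈ R, 0 < p.1 ∧ p.1 ∣ c) :
    Good r R b e (fun n => if n ≤ c then P n else Q n) := by
  have e1 : ∀ n, n ≤ c → (if n ≤ c then P n else Q n) = P n := fun n hn => if_pos hn
  have e2 : ∀ n, c ≤ n → (if n ≤ c then P n else Q n) = Q n := fun n hn => by
    by_cases h : n ≤ c
    · have h' : n = c := le_antisymm h hn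
      rw [if_pos h, h', hc]
    · rw [if_neg h]
  refine ⟨fun n hb he => ?_, fun n hb he => ?_, fun n hn hb he => ?_, fun p hp t hb he => ?_⟩
  · by_cases h : n ≤ c
    · simp only [e1 n h]
      exact hP.le n hb h
    · simp only [e2 n (by omega)]
      exact hQ.le n (by omega) he
  · by_cases h : n + 1 ≤ c
    · simp only [e1 n (by omega), e1 (n + 1) h]
      exact hP.closed n hb h
    · simp only [e2 n (by omega), e2 (n + 1) (by omega)]
      exact hQ.closed n (by omega) he
  · by_cases h : n + 2 ≤ c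
    · exact (hP.h2 n hn hb h).congr (e1 n (by omega)).symm (e1 (n + 1) (by omega)).symm
        (e1 (n + 2) h).symm
    · have h' : c ≤ n := by
        obtain ⟨a, ha⟩ := hn
        obtain ⟨d, hd⟩ := hev
        omega
      exact (hQ.h2 n hn h' he).congr (e2 n h').symm (e2 (n + 1) (by omega)).symm
        (e2 (n + 2) (by omega)).symm
  · obtain ⟨hp0, k, hk⟩ := hdiv p hp
    by_cases h : t < k
    · have h' : (t + 1) * p.1 ≤ c := by
        rw [hk, mul_comm p.1 k]
        exact Nat.mul_le_mul_right _ h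
      simp only [e1 _ h']
      exact hP.rel p hp t hb h'
    · have h' : c ≤ t * p.1 := by
        rw [hk, mul_comm p.1 k]
        exact Nat.mul_le_mul_right _ (not_lt.mp h)
      have h'' : c ≤ (t + 1) * p.1 := h'.trans (Nat.mul_le_mul_right _ (Nat.le_succ t))
      simp only [e2 _ h'']
      exact hQ.rel p hp t h' he

end TAR
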