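import Pool.Agent.TAR.LEAST
import Pool.Agent.TAR.GLUE
import Pool.Agent.TAR.DIMX

/-! ADD: adding one relation lowers the capacity by its dimension. -/

open Module

namespace TAR

variable {r : ℕ}

/-- a complement inside a bigger submodule -/
theorem ADD_compl {A B : Submodule K (F r)} (h : A ≤ B) :
    ∃ C : Submodule K (F r), C ≤ B ∧ A ⊔ C = B ∧ A ⊓ C = ⊥ := by
  obtain ⟨D, hD⟩ := exists_isCompl A
  refine ⟨D ⊓ B, inf_le_right, ?_, ?_⟩
  · rw [← sup_inf_assoc_of_le D h, hD.sup_eq_top, top_inf_eq]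
  · rw [← inf_assoc, hD.inf_eq_bot, bot_inf_eq]

/-- the dimension of a product of two subspaces -/
theorem ADD_finrank_mul (V W : Submodule K (F r)) [FiniteDimensional K V]
    [FiniteDimensional K W] :
    finrank K (V * W : Submodule K (F r)) ≤ finrank K V * finrank K W := by
  have h1 := LinearMap.finrank_range_le (Submodule.mulMap V W)
  rw [Submodule.mulMap_range, Module.finrank_tensorProduct] at h1
  exact h1

theorem CapI.add {R : Rels r} {s h κ : ℕ} {Ω' : Submodule K (F r)} (hh : 0 < h)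
    (hR : ∀ p ∈ R, p.2 ≤ Fd r p.1) (hΩ' : Ω' ≤ Fd r h)
    (hC : CapI r R (s * h) ((s + 1) * h) κ) :
    CapI r (insert (h, Ω') R) (s * h) ((s + 1) * h) (κ - finrank K Ω') := by
  classical
  intro Y Ω hY hΩ
  have hR' : ∀ p ∈ insert (h, Ω') R, p.2 ≤ Fd r p.1 := by
    intro p hp
    rcases Set.mem_insert_iff.mp hp with rfl | hp
    · exact hΩ'
    · exact hR p hp
  obtain ⟨Q, hQ, hYQ, hΩQ, hmin⟩ :=
    exists_least (b := s * h) (e := (s + 1) * h) hR' hY hΩ
  have hle : s * h ≤ (s + 1) * h := Nat.mul_le_mul_right _ (Nat.le_succ _)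
  have heq : (s + 1) * h = s * h + h := by ring
  have hU : Q (s * h) ≤ Fd r (s * h) := hQ.le _ le_rfl hle
  obtain ⟨K', hK'le, hK'sup, hK'inf⟩ := ADD_compl hU
  obtain ⟨U', hU'le, hU'sup, hU'inf⟩ := ADD_compl hYQ
  have hU'Fd : U' ≤ Fd r (s * h) := hU'le.trans hU
  have hYhat : K' ⊔ Y ≤ Fd r (s * h) := sup_le hK'le hY
  have hmulle : Ω' * U' ≤ Fd r ((s + 1) * h) := by
    calc Ω' * U' ≤ Fd r h * Fd r (s * h) := mul_le_mul' hΩ' hU'Fd
      _ = Fd r (h + s * h) := Fd_mul _ _
      _ = Fd r ((s + 1) * h) := by rw [heq, Nat.add_comm]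
  have hΩhat : Ω ⊔ Ω' * U' ≤ Fd r ((s + 1) * h) := sup_le hΩ hmulle
  obtain ⟨P, hP, hYP, hΩP, hdim⟩ := hC (K' ⊔ Y) (Ω ⊔ Ω' * U') hYhat hΩhat
  -- the full space of degree `s * h`
  have hFd : Fd r (s * h) = (K' ⊔ Y) ⊔ U' := by
    rw [← hK'sup, ← hU'sup]
    ac_rfl
  have hPgood : Good r (insert (h, Ω') R) (s * h) ((s + 1) * h) P := by
    refine ⟨hP.le, hP.closed, hP.h2, ?_⟩
    intro p hp t ht1 ht2
    rcases Set.mem_insert_iff.mp hp with rfl | hp
    · have hts : t = s := by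
        apply le_antisymm
        · have := Nat.le_of_mul_le_mul_right ht2 hh
          omega
        · exact Nat.le_of_mul_le_mul_right ht1 hh
      subst hts
      show Ω' * Fd r (t * h) ≤ P ((t + 1) * h)
      rw [hFd, Submodule.mul_sup]
      apply sup_le
      · calc Ω' * (K' ⊔ Y) ≤ Fd r h * P (t * h) := mul_le_mul' hΩ' hYP
          _ ≤ P (t * h + h) := Fd_mul_le hP.closed h (t * h) le_rfl (by rw [heq])
          _ = P ((t + 1) * h) := by rw [heq]
      · exact le_sup_right.trans hΩP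
    · exact hP.rel p hp t ht1 ht2
  have hQP : ∀ n, s * h ≤ n → n ≤ (s + 1) * h → Q n ≤ P n :=
    hmin P hPgood (le_sup_right.trans hYP) (le_sup_left.trans hΩP)
  have hPfull : P (s * h) = Fd r (s * h) := by
    apply le_antisymm (hP.le _ le_rfl hle)
    rw [← hK'sup]
    exact sup_le (hQP _ le_rfl hle) (le_sup_left.trans hYP)
  refine ⟨Q, hQ, hYQ, hΩQ, ?_⟩
  have : FiniteDimensional K K' := finiteDimensional_of_le_Fd hK'le
  have : FiniteDimensional K U' := finiteDimensional_of_le_Fd hU'Fd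
  have : FiniteDimensional K Y := finiteDimensional_of_le_Fd hY
  have : FiniteDimensional K (Q (s * h)) := finiteDimensional_of_le_Fd hU
  have : FiniteDimensional K Ω := finiteDimensional_of_le_Fd hΩ
  have : FiniteDimensional K Ω' := finiteDimensional_of_le_Fd hΩ'
  have e1 := Submodule.finrank_sup_add_finrank_inf_eq (Q (s * h)) K'
  rw [hK'sup, hK'inf, finrank_bot, Nat.add_zero] at e1
  have e2 := Submodule.finrank_sup_add_finrank_inf_eq Y U'
  rw [hU'sup, hU'inf, finrank_bot, Nat.add_zero] at e2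
  have hKY : K' ⊓ Y = ⊥ := by
    rw [eq_bot_iff, ← hK'inf]
    exact le_inf (inf_le_right.trans hYQ) inf_le_left
  have e3 := Submodule.finrank_sup_add_finrank_inf_eq K' Y
  rw [hKY, finrank_bot, Nat.add_zero] at e3
  have e4 : finrank K (Ω ⊔ Ω' * U' : Submodule K (F r)) ≤
      finrank K Ω + finrank K Ω' * finrank K U' := by
    have h1 := Submodule.finrank_add_le_finrank_add_finrank Ω (Ω' * U')
    have h2 := ADD_finrank_mul Ω' U'
    omega
  rw [hPfull] at hdim
  have e5 : finrank K (Fd r (s * h)) - finrank K (K' ⊔ Y : Submodule K (F r)) =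
      finrank K U' := by omega
  have e6 : finrank K (Q (s * h)) - finrank K Y = finrank K U' := by omega
  rw [e5] at hdim
  rw [e6, Nat.sub_mul]
  omega

end TAR
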