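import Pool.Agent.TAR.STEPV

/-! BL: the base capacity. -/

open Module

namespace TAR

variable {r : ℕ}

theorem base_cap (b : ℕ) (hb : Even b) : CapI r (∅ : Rels r) b (b + 2) (r * (r + 1)) := by
  classical
  intro Y Ω hY hΩ
  have : FiniteDimensional K Y := finiteDimensional_of_le_Fd hY
  have : FiniteDimensional K Ω := finiteDimensional_of_le_Fd hΩ
  -- admissible families
  let Adm : (ℕ → Submodule K (F r)) → Prop := fun P =>
    LC3 r b P ∧ Y ≤ P b ∧ Ω ≤ P (b + 2) ∧
      En r b P ≤ (r : ℤ) * (r + 1) * finrank K Y + finrank K Ω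
  let size : (ℕ → Submodule K (F r)) → ℕ := fun P =>
    finrank K (P b) + finrank K (P (b + 1)) + finrank K (P (b + 2))
  let B : ℕ := finrank K (Fd r b) + finrank K (Fd r (b + 1)) + finrank K (Fd r (b + 2))
  have hbound : ∀ P, Adm P → size P ≤ B := by
    rintro P ⟨⟨h0, h1, h2, -, -⟩, -⟩
    have e0 := Submodule.finrank_mono h0
    have e1 := Submodule.finrank_mono h1
    have e2 := Submodule.finrank_mono h2
    show finrank K (P b) + finrank K (P (b + 1)) + finrank K (P (b + 2)) ≤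
      finrank K (Fd r b) + finrank K (Fd r (b + 1)) + finrank K (Fd r (b + 2))
    omega
  -- the start
  have hne : ∃ P, Adm P := by
    let P0 : ℕ → Submodule K (F r) := fun n =>
      if n = b then Y else if n = b + 1 then Fd r 1 * Y else Fd r 1 * (Fd r 1 * Y) ⊔ Ω
    have q0 : P0 b = Y := by simp [P0]
    have q1 : P0 (b + 1) = Fd r 1 * Y := by simp [P0]
    have q2 : P0 (b + 2) = Fd r 1 * (Fd r 1 * Y) ⊔ Ω := by simp [P0]
    have hF1 : Fd r 1 * Y ≤ Fd r (b + 1) := by
      calc Fd r 1 * Y ≤ Fd r 1 * Fd r b := mul_le_mul' le_rfl hY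
        _ = Fd r (b + 1) := by rw [Fd_mul, Nat.add_comm]
    have hF2 : Fd r 1 * (Fd r 1 * Y) ≤ Fd r (b + 2) := by
      calc Fd r 1 * (Fd r 1 * Y) ≤ Fd r 1 * Fd r (b + 1) := mul_le_mul' le_rfl hF1
        _ = Fd r (b + 2) := by rw [Fd_mul, Nat.add_comm]
    refine ⟨P0, ⟨?_, ?_, ?_, ?_, ?_⟩, ?_, ?_, ?_⟩
    · rw [q0]; exact hY
    · rw [q1]; exact hF1
    · rw [q2]; exact sup_le hF2 hΩ
    · rw [q0, q1]
    · rw [q1, q2]; exact le_sup_left
    · rw [q0]
    · rw [q2]; exact le_sup_right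
    · have : FiniteDimensional K (Fd r 1 * Y : Submodule K (F r)) :=
        finiteDimensional_of_le_Fd hF1
      have : FiniteDimensional K (Fd r 1 * (Fd r 1 * Y) : Submodule K (F r)) :=
        finiteDimensional_of_le_Fd hF2
      have d1 := finrank_Fd_one_mul Y
      have d2 := finrank_Fd_one_mul (Fd r 1 * Y)
      have d3 := Submodule.finrank_add_le_finrank_add_finrank (Fd r 1 * (Fd r 1 * Y)) Ω
      unfold En
      rw [q0, q1, q2, d1]
      rw [d2, d1] at d3
      have d4 : (finrank K (Fd r 1 * (Fd r 1 * Y) ⊔ Ω : Submodule K (F r)) : ℤ) ≤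
          2 * (r + 1) * (2 * (r + 1) * finrank K Y) + finrank K Ω := by
        exact_mod_cast d3
      push_cast
      nlinarith [d4]
  obtain ⟨P, hP, hmax⟩ : ∃ P, Adm P ∧ ∀ Q, Adm Q → size Q ≤ size P := by
    obtain ⟨P1, hP1⟩ := hne
    have hex : ∃ m, ∃ P, Adm P ∧ size P = m := ⟨size P1, P1, hP1, rfl⟩
    have hbd : ∀ m, (∃ P, Adm P ∧ size P = m) → m ≤ B := by
      rintro m ⟨P, hP, rfl⟩
      exact hbound P hP
    obtain ⟨m, ⟨P, hP, hPm⟩, hm⟩ : ∃ m, (∃ P, Adm P ∧ size P = m) ∧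
        ∀ k, (∃ P, Adm P ∧ size P = k) → k ≤ m := by
      refine ⟨Nat.findGreatest (fun m => ∃ P, Adm P ∧ size P = m) B, ?_, ?_⟩
      · exact Nat.findGreatest_spec (P := fun m => ∃ P, Adm P ∧ size P = m)
          (hbd _ ⟨P1, hP1, rfl⟩) ⟨P1, hP1, rfl⟩
      · intro k hk
        exact Nat.le_findGreatest (hbd k hk) hk
    exact ⟨P, hP, fun Q hQ => by rw [hPm]; exact hm _ ⟨Q, hQ, rfl⟩⟩
  obtain ⟨hLC, hYP, hΩP, hEn⟩ := hP
  have hfin0 : FiniteDimensional K (P b) := finiteDimensional_of_le_Fd hLC.1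
  have hfin1 : FiniteDimensional K (P (b + 1)) := finiteDimensional_of_le_Fd hLC.2.1
  have hfin2 : FiniteDimensional K (P (b + 2)) := finiteDimensional_of_le_Fd hLC.2.2.1
  have hH : H2 r P b := by
    by_contra hv
    obtain ⟨P', hLC', g0, g1, g2, hlt⟩ := violator_step hLC hv
    have hadm : Adm P' := ⟨hLC', hYP.trans g0, hΩP.trans g2, le_of_lt (lt_of_lt_of_le hlt hEn)⟩
    have hs := hmax P' hadm
    have : FiniteDimensional K (P' b) := finiteDimensional_of_le_Fd hLC'.1
    have : FiniteDimensional K (P' (b + 1)) := finiteDimensional_of_le_Fd hLC'.2.1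
    have : FiniteDimensional K (P' (b + 2)) := finiteDimensional_of_le_Fd hLC'.2.2.1
    have f0 := Submodule.finrank_mono g0
    have f1 := Submodule.finrank_mono g1
    have f2 := Submodule.finrank_mono g2
    have hs' : finrank K (P' b) + finrank K (P' (b + 1)) + finrank K (P' (b + 2)) ≤
        finrank K (P b) + finrank K (P (b + 1)) + finrank K (P (b + 2)) := hs
    have k0 : finrank K (P' b) = finrank K (P b) := by omega
    have k1 : finrank K (P' (b + 1)) = finrank K (P (b + 1)) := by omega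
    have k2 : finrank K (P' (b + 2)) = finrank K (P (b + 2)) := by omega
    unfold En at hlt
    rw [k0, k1, k2] at hlt
    exact lt_irrefl _ hlt
  refine ⟨P, ⟨?_, ?_, ?_, ?_⟩, hYP, hΩP, ?_⟩
  · intro n h1 h2
    obtain rfl | rfl | rfl : n = b ∨ n = b + 1 ∨ n = b + 2 := by omega
    · exact hLC.1
    · exact hLC.2.1
    · exact hLC.2.2.1
  · intro n h1 h2
    obtain rfl | rfl : n = b ∨ n = b + 1 := by omega
    · exact hLC.2.2.2.1
    · exact hLC.2.2.2.2
  · intro n hn h1 h2
    obtain rfl : n = b := by omega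
    exact hH
  · intro p hp
    exact absurd hp (Set.notMem_empty p)
  · have f0 := Submodule.finrank_mono hLC.2.2.2.1
    have f1 := Submodule.finrank_mono hLC.2.2.2.2
    rw [finrank_Fd_one_mul] at f0 f1
    have fY := Submodule.finrank_mono hYP
    unfold En at hEn
    have f0' : 2 * ((r : ℤ) + 1) * finrank K (P b) ≤ finrank K (P (b + 1)) := by
      exact_mod_cast f0
    have f1' : 2 * ((r : ℤ) + 1) * finrank K (P (b + 1)) ≤ finrank K (P (b + 2)) := by
      exact_mod_cast f1
    have hr0 : (0 : ℤ) ≤ (r : ℤ) + 1 := by positivity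
    have f0'' := mul_nonneg hr0 (sub_nonneg.mpr f0')
    have key : (r : ℤ) * (r + 1) * finrank K (P b) ≤
        (r : ℤ) * (r + 1) * finrank K Y + finrank K Ω := by linarith
    have key' : r * (r + 1) * finrank K (P b) ≤ r * (r + 1) * finrank K Y + finrank K Ω := by
      exact_mod_cast key
    rw [Nat.mul_sub]
    omega

end TAR
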