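import Pool.Agent.TAR.QUO

/-! CUT: cutting an element at two places. -/

open Module

namespace TAR

variable {r : ℕ}

theorem cut_lin {S T : Set (F r)} (g : F r →ₗ[K] F r)
    (h : ∀ s ∈ S, g s ∈ Submodule.span K T) {p : F r} (hp : p ∈ Submodule.span K S) :
    g p ∈ Submodule.span K T := by
  have : Submodule.span K S ≤ (Submodule.span K T).comap g := Submodule.span_le.2 h
  exact this hp

theorem cut_left1 (n : ℕ) (z : F r) : part (n + 1) z = ∑ a, wd [a] * part n (lq a z) := by
  have h1 : NC (part (n + 1) z) := by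
    rw [nc_iff]
    exact part_of_ne (part_mem (n + 1) z) (by omega)
  conv_lhs => rw [eq_sum_lq _ h1]
  apply Finset.sum_congr rfl
  intro a _
  rw [lq_part]

theorem cut_right1 (n : ℕ) (z : F r) : part (n + 1) z = ∑ a, part n (rq a z) * wd [a] := by
  have h1 : NC (part (n + 1) z) := by
    rw [nc_iff]
    exact part_of_ne (part_mem (n + 1) z) (by omega)
  conv_lhs => rw [eq_sum_rq _ h1]
  apply Finset.sum_congr rfl
  intro a _
  rw [rq_part]

theorem cut_left (a h : ℕ) : ∀ z : F r,
    part (a + h) z ∈ Submodule.span K {p : F r | ∃ v : List (Al r),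
      v.length = a ∧ p = wd v * part h (v.foldl (fun f x => lq x f) z)} := by
  induction a with
  | zero =>
    intro z
    apply Submodule.subset_span
    refine ⟨[], rfl, ?_⟩
    rw [wd_nil, one_mul, Nat.zero_add]
    rfl
  | succ a ih =>
    intro z
    rw [show a + 1 + h = a + h + 1 by ring, cut_left1]
    apply Submodule.sum_mem
    intro x _
    refine cut_lin (LinearMap.mulLeft K (wd [x])) ?_ (ih (lq x z))
    rintro _ ⟨v, hv, rfl⟩
    apply Submodule.subset_span
    refine ⟨x :: v, by rw [List.length_cons, hv], ?_⟩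
    rw [LinearMap.mulLeft_apply, ← mul_assoc, ← wd_cons]
    rfl

theorem cut_right (n s : ℕ) : ∀ z : F r,
    part (n + s) z ∈ Submodule.span K {p : F r | ∃ w : List (Al r),
      w.length = s ∧ p = part n (w.foldr (fun x f => rq x f) z) * wd w} := by
  induction s with
  | zero =>
    intro z
    apply Submodule.subset_span
    refine ⟨[], rfl, ?_⟩
    rw [wd_nil, mul_one, Nat.add_zero]
    rfl
  | succ s ih =>
    intro z
    rw [← Nat.add_assoc, cut_right1]
    apply Submodule.sum_mem
    intro x _
    refine cut_lin (LinearMap.mulRight K (wd [x])) ?_ (ih (rq x z))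
    rintro _ ⟨w, hw, rfl⟩
    apply Submodule.subset_span
    refine ⟨w ++ [x], by rw [List.length_append, hw]; rfl, ?_⟩
    rw [LinearMap.mulRight_apply, mul_assoc, ← wd_append, List.foldr_append]
    rfl

/-- cutting an element at two places -/
theorem cut (a h s : ℕ) (z : F r) :
    part (a + h + s) z ∈ Submodule.span K {p : F r | ∃ (v w : List (Al r)) (q : F r),
      v.length = a ∧ w.length = s ∧
      q = (v.foldl (fun f x => lq x f) (w.foldr (fun x f => rq x f) z)) ∧
      p = wd v * part h q * wd w} := by
  refine cut_lin LinearMap.id ?_ (cut_right (a + h) s z)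
  rintro _ ⟨w, hw, rfl⟩
  refine cut_lin (LinearMap.mulRight K (wd w)) ?_ (cut_left a h (w.foldr (fun x f => rq x f) z))
  rintro _ ⟨v, hv, rfl⟩
  apply Submodule.subset_span
  exact ⟨v, w, _, hv, hw, rfl, rfl⟩

end TAR
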