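import Mathlib

/-!
Even Tarski numbers (MP_40d138_al), project TAR: definitions.

`K` is the field with two elements, `Al r` the alphabet of `2 (r + 1)` letters
(the letters `inl i` are the x-letters, the letters `inr i` the y-letters),
`F r` the free algebra on `Al r`, `Fd r n` its part of degree `n`.
-/

open Module

namespace TAR

/-- the field with two elements -/
abbrev K : Type := ZMod 2

/-- letters: `inl i` is the letter `x_i`, `inr i` is the letter `y_i` -/
abbrev Al (r : ℕ) : Type := Fin (r + 1) ⊕ Fin (r + 1)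

/-- the free algebra on the letters -/
abbrev F (r : ℕ) : Type := MonoidAlgebra (ZMod 2) (FreeMonoid (Al r))

/-- the word `w` as an element of the free algebra -/
noncomputable def wd {r : ℕ} (w : List (Al r)) : F r :=
  MonoidAlgebra.single (FreeMonoid.ofList w) 1

/-- the constant coefficient of an element of the free algebra is zero -/
def NC {r : ℕ} (f : F r) : Prop := f.coeff (1 : FreeMonoid (Al r)) = 0

/-- projection to the part of degree `n` -/
noncomputable def part {r : ℕ} (n : ℕ) : F r →ₗ[K] F r where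
  toFun p := MonoidAlgebra.ofCoeff (p.coeff.filter fun w => w.length = n)
  map_add' p q := by
    apply MonoidAlgebra.ext
    simp [Finsupp.filter_add]
  map_smul' c p := by
    apply MonoidAlgebra.ext
    simp [Finsupp.filter_smul]

/-- left quotient by the letter `a`: the coefficient at `w` is the coefficient at `a w` -/
noncomputable def lq {r : ℕ} (a : Al r) : F r →ₗ[K] F r where
  toFun p := MonoidAlgebra.ofCoeff
    (p.coeff.comapDomain (fun w => FreeMonoid.of a * w)
      (fun _ _ _ _ h => mul_left_cancel h))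
  map_add' p q := by
    apply MonoidAlgebra.ext
    ext w
    rfl
  map_smul' c p := by
    apply MonoidAlgebra.ext
    ext w
    rfl

/-- right quotient by the letter `a`: the coefficient at `w` is the coefficient at `w a` -/
noncomputable def rq {r : ℕ} (a : Al r) : F r →ₗ[K] F r where
  toFun p := MonoidAlgebra.ofCoeff
    (p.coeff.comapDomain (fun w => w * FreeMonoid.of a)
      (fun _ _ _ _ h => mul_right_cancel h))
  map_add' p q := by
    apply MonoidAlgebra.ext
    ext w
    rfl
  map_smul' c p := by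
    apply MonoidAlgebra.ext
    ext w
    rfl

/-- the part of degree `n` of the free algebra -/
noncomputable def Fd (r n : ℕ) : Submodule K (F r) :=
  Submodule.span K {p | ∃ w : List (Al r), w.length = n ∧ p = wd w}

/-- the span of the x-letters -/
noncomputable def XM (r : ℕ) : Submodule K (F r) :=
  Submodule.span K (Set.range fun i : Fin (r + 1) => (wd [Sum.inl i] : F r))

/-- the span of the y-letters -/
noncomputable def YM (r : ℕ) : Submodule K (F r) :=
  Submodule.span K (Set.range fun i : Fin (r + 1) => (wd [Sum.inr i] : F r))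

/-- the dimension of `V` modulo `P` -/
noncomputable def rd {r : ℕ} (V P : Submodule K (F r)) : ℕ :=
  finrank K V - finrank K (V ⊓ P : Submodule K (F r))

/-- the two-level Hall inequality of the family `P` at level `n` -/
def H2 (r : ℕ) (P : ℕ → Submodule K (F r)) (n : ℕ) : Prop :=
  ∀ V₁ V₂ W₁ W₂ : Submodule K (F r),
    V₁ ≤ Fd r n → V₂ ≤ Fd r n → W₁ ≤ Fd r (n + 1) → W₂ ≤ Fd r (n + 1) →
    rd V₁ (P n) + rd V₂ (P n) + rd W₁ (P (n + 1)) + rd W₂ (P (n + 1)) ≤
      rd (W₁ ⊔ W₂ ⊔ XM r * V₁ ⊔ YM r * V₂) (P (n + 1)) +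
        rd (XM r * W₁ ⊔ YM r * W₂) (P (n + 2))

/-- a set of relations: pairs `(h, Ω)`; the relation `(h, Ω)` asks for
`Ω * Fd (t h) ≤ P ((t+1) h)` for all `t` -/
abbrev Rels (r : ℕ) : Type := Set (ℕ × Submodule K (F r))

/-- the family `P` is good on the interval `[b, e]` for the relations `R` -/
structure Good (r : ℕ) (R : Rels r) (b e : ℕ) (P : ℕ → Submodule K (F r)) : Prop where
  le : ∀ n, b ≤ n → n ≤ e → P n ≤ Fd r n
  closed : ∀ n, b ≤ n → n + 1 ≤ e → Fd r 1 * P n ≤ P (n + 1)
  h2 : ∀ n, Even n → b ≤ n → n + 2 ≤ e → H2 r P n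
  rel : ∀ p ∈ R, ∀ t : ℕ, b ≤ t * p.1 → (t + 1) * p.1 ≤ e →
    p.2 * Fd r (t * p.1) ≤ P ((t + 1) * p.1)

/-- capacity `κ` on the interval `[b, e]` -/
def CapI (r : ℕ) (R : Rels r) (b e κ : ℕ) : Prop :=
  ∀ Y Ω : Submodule K (F r), Y ≤ Fd r b → Ω ≤ Fd r e →
    ∃ P : ℕ → Submodule K (F r), Good r R b e P ∧ Y ≤ P b ∧ Ω ≤ P e ∧
      κ * (finrank K (P b) - finrank K Y) ≤ finrank K Ω

/-- all relations in `R` are homogeneous, of positive degree dividing `H` -/
def RelOK (r : ℕ) (R : Rels r) (H : ℕ) : Prop :=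
  ∀ p ∈ R, 0 < p.1 ∧ p.1 ∣ H ∧ p.2 ≤ Fd r p.1

/-- the potential of a three-level family at levels `b`, `b+1`, `b+2` -/
noncomputable def En (r b : ℕ) (P : ℕ → Submodule K (F r)) : ℤ :=
  (r : ℤ) * (r + 1) * finrank K (P b) +
    ((r : ℤ) + 1) * (finrank K (P (b + 1)) - 2 * ((r : ℤ) + 1) * finrank K (P b)) +
    ((finrank K (P (b + 2)) : ℤ) - 2 * ((r : ℤ) + 1) * finrank K (P (b + 1)))

/-- three-level left closed family at levels `b`, `b+1`, `b+2` -/
def LC3 (r b : ℕ) (P : ℕ → Submodule K (F r)) : Prop :=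
  P b ≤ Fd r b ∧ P (b + 1) ≤ Fd r (b + 1) ∧ P (b + 2) ≤ Fd r (b + 2) ∧
    Fd r 1 * P b ≤ P (b + 1) ∧ Fd r 1 * P (b + 1) ≤ P (b + 2)

/-- a state of the construction: a set of relations `R`, a length `H` and the capacity `κ`
of all intervals of length `H` -/
structure IsState (r : ℕ) (R : Rels r) (H κ : ℕ) : Prop where
  rels : RelOK r R H
  even : 2 ∣ H
  pos : 0 < H
  big : r ^ H < κ
  cap : ∀ t : ℕ, CapI r R (t * H) ((t + 1) * H) κ

/-- a sequence of possible relations whose dimension grows like the number of words in `r`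
letters -/
def SlowRel (r : ℕ) (Ω : ℕ → Submodule K (F r)) : Prop :=
  (∀ h, Ω h ≤ Fd r h) ∧
    ∃ C : ℕ, ∀ h, finrank K (Ω h) ≤ C * ∑ n ∈ Finset.range (h + 1), r ^ n

/-- product of the values of `u` along the word `v` -/
noncomputable def wp {r : ℕ} (u : Fin r → F r) (v : List (Fin r)) : F r := (v.map u).prod

/-- the flow space of a tuple `u` with bound `D` -/
noncomputable def flowW {r : ℕ} (u : Fin r → F r) (D : ℕ) : Submodule K (F r) :=
  Submodule.span K {p | ∃ (w₁ w₂ : List (Al r)) (v : List (Fin r)),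
    w₁.length < D ∧ w₂.length < D ∧ p = wd w₁ * wp u v * wd w₂}

/-- the family `P` is a graded left ideal -/
structure LeftClosed (r : ℕ) (P : ℕ → Submodule K (F r)) : Prop where
  le : ∀ n, P n ≤ Fd r n
  closed : ∀ n, Fd r 1 * P n ≤ P (n + 1)

/-- the graded left ideal as one subspace -/
noncomputable def PI {r : ℕ} (P : ℕ → Submodule K (F r)) : Submodule K (F r) := ⨆ n, P n

/-- the quotient `F r ⧸ PI P` with its action and its graded pieces -/
structure QData (r : ℕ) (P : ℕ → Submodule K (F r)) where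
  /-- left multiplication -/
  ρ : F r →ₐ[K] Module.End K (F r ⧸ PI P)
  /-- the part of degree `n` -/
  π : ∀ n : ℕ, (F r ⧸ PI P) →ₗ[K] (F r ⧸ P n)
  hρ : ∀ f g : F r, ρ f ((PI P).mkQ g) = (PI P).mkQ (f * g)
  hπ : ∀ (n : ℕ) (g : F r), π n ((PI P).mkQ g) = (P n).mkQ (part n g)

/-- the elements of `F r ⧸ PI P` without parts of degree `< n` -/
noncomputable def QData.Fil {r : ℕ} {P : ℕ → Submodule K (F r)} (D : QData r P) (n : ℕ) :
    Submodule K (F r ⧸ PI P) := ⨅ i : Fin n, LinearMap.ker (D.π i)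

/-- the leading parts of degree `n` of the elements of `V`, as a subspace of `F r`
containing `P n` -/
noncomputable def QData.gr {r : ℕ} {P : ℕ → Submodule K (F r)} (D : QData r P)
    (V : Submodule K (F r ⧸ PI P)) (n : ℕ) : Submodule K (F r) :=
  Fd r n ⊓ ((V ⊓ D.Fil n).map (D.π n)).comap (P n).mkQ

/-- the Hall inequality for two finite dimensional subspaces -/
def GHlin {M : Type} [AddCommGroup M] [Module K M] {r : ℕ}
    (x y : Fin (r + 1) → Module.End K M) : Prop :=
  ∀ V₁ V₂ : Submodule K M, FiniteDimensional K V₁ → FiniteDimensional K V₂ →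
    finrank K V₁ + finrank K V₂ ≤
      finrank K (V₁ ⊔ V₂ ⊔ (⨆ i, V₁.map (x i)) ⊔ (⨆ i, V₂.map (y i)) : Submodule K M)

/-- the linear data from which the group is built -/
structure LinRep (r : ℕ) where
  /-- the space -/
  M : Type
  [acg : AddCommGroup M]
  [mod : Module (ZMod 2) M]
  /-- the action of the free algebra -/
  ρ : F r →ₐ[ZMod 2] Module.End (ZMod 2) M
  /-- the filtration -/
  Fil : ℕ → Submodule (ZMod 2) M
  fil_zero : Fil 0 = ⊤
  fil_anti : ∀ n, Fil (n + 1) ≤ Fil n
  fil_inf : ∀ m : M, (∀ n, m ∈ Fil n) → m = 0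
  fil_fin : ∀ n, Finite (M ⧸ Fil n)
  nontriv : ∃ m : M, m ≠ 0
  fil_map : ∀ n (a : Al r) (m : M), m ∈ Fil n → ρ (wd [a]) m ∈ Fil (n + 1)
  gh : GHlin (fun i : Fin (r + 1) => ρ (wd [Sum.inl i])) (fun i => ρ (wd [Sum.inr i]))
  nil : ∀ u : Fin r → F r, (∀ l, NC (u l)) →
    ∃ N : ℕ, ∀ v : List (Fin r), v.length = N → ρ (wp u v) = 0

attribute [instance] LinRep.acg LinRep.mod

/-- the Hall inequality for two finite subsets of a group, for the sets
`{1} ∪ {x_i}` and `{1} ∪ {y_i}` -/
def GHset {G : Type} [Group G] [DecidableEq G] {r : ℕ} (x y : Fin (r + 1) → G) : Prop :=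
  ∀ F₁ F₂ : Finset G,
    F₁.card + F₂.card ≤
      ((F₁ ∪ F₂) ∪ (Finset.univ.biUnion fun i => F₁.image fun g => x i * g) ∪
        (Finset.univ.biUnion fun i => F₂.image fun g => y i * g)).card

/-- every subgroup generated by `r` elements is finite -/
def RFin (G : Type) [Group G] (r : ℕ) : Prop :=
  ∀ s : Fin r → G, Finite (Subgroup.closure (Set.range s))

/-- `G` has a paradoxical decomposition `A_0, …, A_{m-1}, B_0, …, B_{n-1}` into `m + n`
nonempty pairwise disjoint sets, with translating elements `a_i`, `b_j` -/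
def HasParadox (G : Type) [Group G] (m n : ℕ) : Prop :=
  ∃ (A : Fin m → Set G) (B : Fin n → Set G) (a : Fin m → G) (b : Fin n → G),
    (∀ i, (A i).Nonempty) ∧ (∀ j, (B j).Nonempty) ∧
    (∀ i i', i ≠ i' → Disjoint (A i) (A i')) ∧
    (∀ j j', j ≠ j' → Disjoint (B j) (B j')) ∧
    (∀ i j, Disjoint (A i) (B j)) ∧
    (⋃ i, A i) ∪ (⋃ j, B j) = Set.univ ∧
    (⋃ i, (fun g => a i * g) '' A i) = Set.univ ∧
    (⋃ j, (fun g => b j * g) '' B j) = Set.univ

/-- the Tarski number of `G` is the natural number `k`: there is a paradoxical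
decomposition with `k` pieces, and none with fewer -/
def HasTarskiNumber (G : Type) [Group G] (k : ℕ) : Prop :=
  (∃ m n : ℕ, 1 ≤ m ∧ 1 ≤ n ∧ m + n = k ∧ HasParadox G m n) ∧
    ∀ m n : ℕ, 1 ≤ m → 1 ≤ n → HasParadox G m n → k ≤ m + n

end TAR
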