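import Pool.Agent.TAR.CUT
import Pool.Agent.TAR.FLOWD

/-! NILP: the relations kill all long products. -/

open Module

namespace TAR

variable {r : ℕ}

private theorem NILP_foldr_mem {W : Submodule K (F r)} (hr : ∀ a, W.map (rq a) ≤ W)
    (w' : List (Al r)) {z : F r} (hz : z ∈ W) : w'.foldr (fun x f => rq x f) z ∈ W := by
  induction w' with
  | nil => exact hz
  | cons a w' ih => exact hr a (Submodule.mem_map_of_mem ih)

private theorem NILP_foldl_mem {W : Submodule K (F r)} (hl : ∀ a, W.map (lq a) ≤ W)
    (v' : List (Al r)) {z : F r} (hz : z ∈ W) : v'.foldl (fun f x => lq x f) z ∈ W := by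
  induction v' generalizing z with
  | nil => exact hz
  | cons a v' ih => exact ih (hl a (Submodule.mem_map_of_mem hz))

private theorem NILP_strip {W : Submodule K (F r)} (hr : ∀ a, W.map (rq a) ≤ W) {y : F r}
    (hy : y ∈ W) (n : ℕ) : ∀ w w' : List (Al r), w.length = n → w.length ≤ w'.length →
    w'.foldr (fun x f => rq x f) (y * wd w) ∈ W := by
  induction n with
  | zero =>
    intro w w' hn _
    rw [List.length_eq_zero_iff] at hn
    subst hn
    rw [wd_nil, mul_one]
    exact NILP_foldr_mem hr w' hy
  | succ n ih =>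
    intro w w' hn hle
    rcases List.eq_nil_or_concat' w with rfl | ⟨w, b, rfl⟩
    · simp at hn
    rcases List.eq_nil_or_concat' w' with rfl | ⟨w', c, rfl⟩
    · simp at hle
    rw [List.foldr_append]
    have h1 : NC (wd (w ++ [b]) : F r) := NC_wd _ (by simp)
    simp only [List.foldr_cons, List.foldr_nil]
    rw [rq_mul_of_nc c h1, rq_wd_concat]
    have hn' : w.length = n := by simpa using hn
    have hle' : w.length ≤ w'.length := by simpa using hle
    split_ifs
    · exact ih w w' hn' hle'
    · rw [mul_zero]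
      exact NILP_foldr_mem hr w' W.zero_mem

theorem nilp (u : Fin r → F r) (hu : ∀ l, NC (u l)) (W : Submodule K (F r))
    (hW : ∀ v : List (Fin r), wp u v ∈ W) (hl : ∀ a, W.map (lq a) ≤ W)
    (hr : ∀ a, W.map (rq a) ≤ W) {P : ℕ → Submodule K (F r)} (hP : LeftClosed r P)
    {h : ℕ} (hh : 0 < h)
    (hrel : ∀ t, W.map (part h) * Fd r (t * h) ≤ P ((t + 1) * h))
    (v : List (Fin r)) (hv : v.length = 2 * h) (f : F r) :
    wp u v * f ∈ PI P := by
  have hf : f ∈ Submodule.span K (Set.range (wd : List (Al r) → F r)) := by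
    rw [span_wd]; exact Submodule.mem_top
  induction hf using Submodule.span_induction with
  | zero => rw [mul_zero]; exact Submodule.zero_mem _
  | add x y _ _ hx hy => rw [mul_add]; exact Submodule.add_mem _ hx hy
  | smul c x _ hx => rw [mul_smul_comm]; exact Submodule.smul_mem _ _ hx
  | mem x hx =>
    obtain ⟨w, rfl⟩ := hx
    obtain ⟨N, -, hN⟩ := exists_sum_part (wp u v * wd w)
    rw [hN]
    refine Submodule.sum_mem _ fun n _ => ?_
    have hw := wd_mem_Fd (r := r) w
    rcases Nat.lt_or_ge n (2 * h + w.length) with hn | hn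
    · -- low degrees vanish
      have h0 : part n (wp u v * wd w) = 0 := by
        rcases Nat.lt_or_ge n w.length with h1 | h1
        · exact mul_part_of_lt hw _ h1
        · obtain ⟨m, rfl⟩ := Nat.exists_eq_add_of_le' h1
          rw [mul_part_of_mem hw, part_wp_eq_zero u hu v (by omega), zero_mul]
      rw [h0]
      exact Submodule.zero_mem _
    · -- high degrees
      obtain ⟨t, ht1, ht2⟩ : ∃ t, w.length ≤ t * h ∧ t * h < w.length + h := by
        refine ⟨(w.length + h - 1) / h, ?_, ?_⟩
        · have h1 := Nat.lt_div_mul_add hh (a := w.length + h - 1)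
          omega
        · have h1 := Nat.div_mul_le_self (w.length + h - 1) h
          omega
      obtain ⟨a, ha⟩ : ∃ a, n = a + h + t * h := ⟨n - (h + t * h), by omega⟩
      rw [ha]
      have hc := cut a h (t * h) (wp u v * wd w)
      refine (Submodule.span_le.2 ?_) hc
      rintro p ⟨v', w', q, hv', hw', hq, rfl⟩
      have hqW : q ∈ W := by
        rw [hq]
        exact NILP_foldl_mem hl v' (NILP_strip hr (hW v) _ w w' rfl (by omega))
      have hv2 : (wd v' : F r) ∈ Fd r a := hv' ▸ wd_mem_Fd v'
      have hw2 : (wd w' : F r) ∈ Fd r (t * h) := hw' ▸ wd_mem_Fd w'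
      have h1 : part h q * wd w' ∈ P ((t + 1) * h) :=
        hrel t (Submodule.mul_mem_mul (Submodule.mem_map_of_mem hqW) hw2)
      have h2 : wd v' * (part h q * wd w') ∈ P ((t + 1) * h + a) :=
        Fd_mul_le (b := 0) (e := (t + 1) * h + a) (fun n _ _ => hP.closed n) a _
          (Nat.zero_le _) le_rfl (Submodule.mul_mem_mul hv2 h1)
      rw [mul_assoc]
      exact (le_iSup P ((t + 1) * h + a)) h2

end TAR
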