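import Pool.Agent.TAR.LIM
import Pool.Agent.TAR.FLOW
import Pool.Agent.TAR.NILP

/-! FAM: the family. -/

open Module

namespace TAR

variable {r : ℕ}

theorem exists_family (hr : 1 ≤ r) :
    ∃ P : ℕ → Submodule K (F r), LeftClosed r P ∧ (∀ n, Even n → H2 r P n) ∧ P 0 = ⊥ ∧
      ∀ u : Fin r → F r, (∀ l, NC (u l)) →
        ∃ N : ℕ, ∀ v : List (Fin r), v.length = N → ∀ f : F r, wp u v * f ∈ PI P := by
  have : Countable (F r) := countable_F
  have : Nonempty {u : Fin r → F r // ∀ l, NC (u l)} := ⟨⟨fun _ => 0, fun _ => rfl⟩⟩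
  obtain ⟨s, hs⟩ := exists_surjective_nat {u : Fin r → F r // ∀ l, NC (u l)}
  choose W hW hl hr' hslow using fun i => exists_flow (s i).1 (s i).2
  obtain ⟨P, hP, h2, h0, hrel⟩ := exists_limit hr (fun i h => (W i).map (part h)) hslow
  refine ⟨P, hP, h2, h0, fun u hu => ?_⟩
  obtain ⟨i, hi⟩ := hs ⟨u, hu⟩
  obtain ⟨h, hh, hr2⟩ := hrel i
  have hu' : (s i).1 = u := by rw [hi]
  refine ⟨2 * h, fun v hv f => ?_⟩
  exact nilp u hu (W i) (by rw [← hu']; exact hW i) (hl i) (hr' i) hP hh hr2 v hv f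

end TAR
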