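import Pool.Agent.TAR.QD

/-! FILP: the filtration of the quotient. -/

open Module

namespace TAR

variable {r : ℕ} {P : ℕ → Submodule K (F r)}

theorem FILP_mem (D : QData r P) (n : ℕ) (m : F r ⧸ PI P) :
    m ∈ D.Fil n ↔ ∀ i, i < n → D.π i m = 0 := by
  unfold QData.Fil
  rw [Submodule.mem_iInf]
  constructor
  · intro h i hi
    exact LinearMap.mem_ker.1 (h ⟨i, hi⟩)
  · intro h i
    exact LinearMap.mem_ker.2 (h i.1 i.2)

theorem Fil_zero (D : QData r P) : D.Fil 0 = ⊤ := by
  rw [eq_top_iff]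
  intro m _
  rw [FILP_mem]
  intro i hi
  exact absurd hi (Nat.not_lt_zero i)

theorem Fil_succ (D : QData r P) (n : ℕ) :
    D.Fil (n + 1) = D.Fil n ⊓ LinearMap.ker (D.π n) := by
  ext m
  rw [Submodule.mem_inf, FILP_mem, FILP_mem, LinearMap.mem_ker]
  constructor
  · intro h
    exact ⟨fun i hi => h i (by omega), h n (by omega)⟩
  · rintro ⟨h1, h2⟩ i hi
    rcases Nat.lt_succ_iff_lt_or_eq.1 hi with h | h
    · exact h1 i h
    · rw [h]; exact h2

theorem eq_zero_of_mem_Fil (hP : LeftClosed r P) (D : QData r P) (m : F r ⧸ PI P)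
    (h : ∀ n, m ∈ D.Fil n) : m = 0 := by
  obtain ⟨g, rfl⟩ := Submodule.mkQ_surjective _ m
  have h1 : ∀ n, part n g ∈ P n := by
    intro n
    have h2 := (FILP_mem D (n + 1) _).1 (h (n + 1)) n (by omega)
    rw [D.hπ] at h2
    rwa [Submodule.mkQ_apply, Submodule.Quotient.mk_eq_zero] at h2
  have h3 : g ∈ PI P := (mem_PI hP).2 h1
  rwa [Submodule.mkQ_apply, Submodule.Quotient.mk_eq_zero]

theorem FILP_anti (D : QData r P) : Antitone D.Fil := by
  apply antitone_nat_of_succ_le
  intro n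
  rw [Fil_succ]
  exact inf_le_left

/-- a finite dimensional subspace meets the filtration trivially from some point on -/
theorem exists_inf_Fil_eq_bot (hP : LeftClosed r P) (D : QData r P)
    (V : Submodule K (F r ⧸ PI P)) [FiniteDimensional K V] : ∃ N, V ⊓ D.Fil N = ⊥ := by
  classical
  have hfin : Finite V := Module.finite_of_finite K
  have h1 : ∀ v : V, ∃ N : ℕ, (v : F r ⧸ PI P) ≠ 0 → (v : F r ⧸ PI P) ∉ D.Fil N := by
    intro v
    by_cases hv : (v : F r ⧸ PI P) = 0
    · exact ⟨0, fun h => absurd hv h⟩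
    · by_contra hcon
      push Not at hcon
      exact hv (eq_zero_of_mem_Fil hP D _ fun n => (hcon n).2)
  choose N hN using h1
  haveI := Fintype.ofFinite V
  refine ⟨Finset.univ.sup N, ?_⟩
  rw [eq_bot_iff]
  rintro v ⟨hv1, hv2⟩
  by_contra hne
  have hne' : v ≠ 0 := fun h => hne (by rw [h]; exact Submodule.zero_mem _)
  exact hN ⟨v, hv1⟩ hne' (FILP_anti D (Finset.le_sup (Finset.mem_univ _)) hv2)

end TAR
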