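import Pool.Agent.TAR.GRS
import Pool.Agent.TAR.GRX

/-! GHM: the Hall inequality in the quotient. -/

open Module

namespace TAR

variable {r : ℕ} {P : ℕ → Submodule K (F r)}

theorem ghm_rng (a : ℕ → ℕ) (M : ℕ) :
    ∑ n ∈ Finset.range (2 * M), a n = ∑ k ∈ Finset.range M, (a (2 * k) + a (2 * k + 1)) := by
  induction M with
  | zero => rfl
  | succ M ih =>
    rw [show 2 * (M + 1) = 2 * M + 1 + 1 by ring, Finset.sum_range_succ, Finset.sum_range_succ, ih,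
      Finset.sum_range_succ, add_assoc]

theorem ghm (hP : LeftClosed r P) (h2 : ∀ n, Even n → H2 r P n) (D : QData r P) :
    GHlin (fun i : Fin (r + 1) => D.ρ (wd [Sum.inl i])) (fun i => D.ρ (wd [Sum.inr i])) := by
  intro V₁ V₂ f1 f2
  set W : Submodule K (F r ⧸ PI P) := V₁ ⊔ V₂ ⊔
    (⨆ i : Fin (r + 1), V₁.map (D.ρ (wd [Sum.inl i]))) ⊔
      (⨆ i : Fin (r + 1), V₂.map (D.ρ (wd [Sum.inr i]))) with hW
  have := f1
  have := f2
  have fW : FiniteDimensional K W := by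
    rw [hW]
    infer_instance
  have l1 : V₁ ≤ W := le_trans le_sup_left (le_trans le_sup_left le_sup_left)
  have l2 : V₂ ≤ W := le_trans le_sup_right (le_trans le_sup_left le_sup_left)
  have lx : (⨆ i : Fin (r + 1), V₁.map (D.ρ (wd [Sum.inl i]))) ≤ W :=
    le_trans le_sup_right le_sup_left
  have ly : (⨆ i : Fin (r + 1), V₂.map (D.ρ (wd [Sum.inr i]))) ≤ W := le_sup_right
  obtain ⟨N1, hN1⟩ := finrank_eq_sum hP D V₁
  obtain ⟨N2, hN2⟩ := finrank_eq_sum hP D V₂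
  obtain ⟨N3, hN3⟩ := finrank_eq_sum hP D W
  set M := N1 + N2 + N3 with hM
  have e1 := hN1 (2 * M) (by omega)
  have e2 := hN2 (2 * M) (by omega)
  have e3 := hN3 (2 * M + 1) (by omega)
  rw [e1, e2, e3, ghm_rng, ghm_rng, ← Finset.sum_add_distrib, Finset.sum_range_succ']
  refine le_trans ?_ (Nat.le_add_right _ _)
  rw [ghm_rng (fun n => rd (D.gr W (n + 1)) (P (n + 1)))]
  apply Finset.sum_le_sum
  intro k _
  have key := h2 (2 * k) (even_two_mul k) (D.gr V₁ (2 * k)) (D.gr V₂ (2 * k))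
    (D.gr V₁ (2 * k + 1)) (D.gr V₂ (2 * k + 1)) (gr_le D _ _) (gr_le D _ _) (gr_le D _ _)
    (gr_le D _ _)
  have m1 : D.gr V₁ (2 * k + 1) ⊔ D.gr V₂ (2 * k + 1) ⊔ XM r * D.gr V₁ (2 * k) ⊔
      YM r * D.gr V₂ (2 * k) ≤ D.gr W (2 * k + 1) := by
    refine sup_le (sup_le (sup_le (gr_mono D l1 _) (gr_mono D l2 _)) ?_) ?_
    · exact (X_mul_gr_le hP D V₁ (2 * k)).trans (gr_mono D lx _)
    · exact (Y_mul_gr_le hP D V₂ (2 * k)).trans (gr_mono D ly _)
  have m2 : XM r * D.gr V₁ (2 * k + 1) ⊔ YM r * D.gr V₂ (2 * k + 1) ≤ D.gr W (2 * k + 2) := by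
    refine sup_le ?_ ?_
    · exact (X_mul_gr_le hP D V₁ (2 * k + 1)).trans (gr_mono D lx _)
    · exact (Y_mul_gr_le hP D V₂ (2 * k + 1)).trans (gr_mono D ly _)
  have : FiniteDimensional K (D.gr W (2 * k + 1)) := finiteDimensional_of_le_Fd (gr_le D _ _)
  have : FiniteDimensional K (D.gr W (2 * k + 2)) := finiteDimensional_of_le_Fd (gr_le D _ _)
  have r1 := rd_mono_left (P (2 * k + 1)) m1
  have r2 := rd_mono_left (P (2 * k + 2)) m2
  have : 2 * k + 1 + 1 = 2 * k + 2 := rfl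
  simp only [this]
  omega

end TAR
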