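import Pool.Agent.TAR.WD

/-! RD: arithmetic of the relative dimension. -/

open Module

namespace TAR

variable {r : ℕ}

theorem rd_add_inf (V P : Submodule K (F r)) [FiniteDimensional K V] :
    rd V P + finrank K (V ⊓ P : Submodule K (F r)) = finrank K V := by
  have h : finrank K (V ⊓ P : Submodule K (F r)) ≤ finrank K V :=
    Submodule.finrank_mono inf_le_left
  unfold rd
  omega

theorem rd_add (V P : Submodule K (F r)) [FiniteDimensional K V] [FiniteDimensional K P] :
    finrank K (V ⊔ P : Submodule K (F r)) = rd V P + finrank K P := by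
  have h := Submodule.finrank_sup_add_finrank_inf_eq V P
  have h2 := rd_add_inf V P
  omega

theorem rd_mono_left {V W : Submodule K (F r)} (P : Submodule K (F r))
    [FiniteDimensional K W] (h : V ≤ W) : rd V P ≤ rd W P := by
  haveI : FiniteDimensional K V := Submodule.finiteDimensional_of_le h
  haveI : FiniteDimensional K (W ⊓ P : Submodule K (F r)) :=
    Submodule.finiteDimensional_of_le (inf_le_left (a := W) (b := P))
  have e := Submodule.finrank_sup_add_finrank_inf_eq V (W ⊓ P)
  have e2 : V ⊓ (W ⊓ P) = V ⊓ P := by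
    rw [← inf_assoc, inf_eq_left.2 h]
  rw [e2] at e
  have e3 : finrank K (V ⊔ (W ⊓ P) : Submodule K (F r)) ≤ finrank K W :=
    Submodule.finrank_mono (sup_le h inf_le_left)
  have h1 := rd_add_inf V P
  have h2 := rd_add_inf W P
  omega

theorem rd_anti_right (V : Submodule K (F r)) {P Q : Submodule K (F r)}
    [FiniteDimensional K V] (h : P ≤ Q) : rd V Q ≤ rd V P := by
  haveI : FiniteDimensional K (V ⊓ Q : Submodule K (F r)) :=
    Submodule.finiteDimensional_of_le (inf_le_left (a := V) (b := Q))
  have e : finrank K (V ⊓ P : Submodule K (F r)) ≤ finrank K (V ⊓ Q : Submodule K (F r)) :=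
    Submodule.finrank_mono (inf_le_inf_left V h)
  unfold rd
  omega

theorem rd_inf (V P Q : Submodule K (F r)) [FiniteDimensional K V] :
    rd V (P ⊓ Q) = rd V P + rd (V ⊓ P) Q := by
  haveI : FiniteDimensional K (V ⊓ P : Submodule K (F r)) :=
    Submodule.finiteDimensional_of_le (inf_le_left (a := V) (b := P))
  have h1 := rd_add_inf V P
  have h2 := rd_add_inf (V ⊓ P) Q
  have h3 := rd_add_inf V (P ⊓ Q)
  rw [← inf_assoc] at h3
  omega

theorem rd_sup_right (V P : Submodule K (F r)) [FiniteDimensional K V]
    [FiniteDimensional K P] : rd (V ⊔ P) P = rd V P := by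
  have h := rd_add V P
  have h1 := rd_add_inf (V ⊔ P) P
  rw [inf_eq_right.2 (le_sup_right : P ≤ V ⊔ P)] at h1
  omega

theorem rd_of_le {V P : Submodule K (F r)} [FiniteDimensional K V] (h : P ≤ V) :
    rd V P + finrank K P = finrank K V := by
  have h1 := rd_add_inf V P
  rwa [inf_eq_right.2 h] at h1

theorem rd_eq_zero {V P : Submodule K (F r)} (h : V ≤ P) : rd V P = 0 := by
  unfold rd
  rw [inf_eq_left.2 h, Nat.sub_self]

end TAR
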