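import Pool.Agent.TAR.UNIP

/-! POLY: the elements of the group are `1 + ρ f`. -/

open Module

namespace TAR

variable {r : ℕ}

theorem POLY_zero : NC (0 : F r) := by
  simp [NC]

theorem POLY_two (L : LinRep r) (x : Module.End K L.M) : x + x = 0 := by
  have h : (2 : K) = 0 := by decide
  rw [← two_smul K x, h, zero_smul]

/-- a geometric sum without constant term -/
theorem POLY_geom (L : LinRep r) (a : Al r) (N : ℕ) :
    ∃ f : F r, NC f ∧
      (1 + L.ρ (wd [a])) * (1 + L.ρ f) = 1 + (L.ρ (wd [a])) ^ (N + 1) := by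
  induction N with
  | zero => exact ⟨0, POLY_zero, by simp⟩
  | succ N ih =>
    obtain ⟨f, hf, h⟩ := ih
    refine ⟨f + wd [a] ^ (N + 1), hf.add ?_, ?_⟩
    · rw [pow_succ]
      exact NC.mul_left (NC_wd [a] (by simp)) _
    · have h1 : L.ρ (f + wd [a] ^ (N + 1)) = L.ρ f + (L.ρ (wd [a])) ^ (N + 1) := by
        rw [map_add, map_pow]
      rw [h1, ← add_assoc, mul_add, h, add_mul, one_mul, ← pow_succ', add_assoc,
        ← add_assoc ((L.ρ (wd [a])) ^ (N + 1)), POLY_two, zero_add]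

theorem poly (hr : 1 ≤ r) (L : LinRep r) (e : Al r → (Module.End K L.M)ˣ)
    (he : ∀ a, ((e a : (Module.End K L.M)ˣ) : Module.End K L.M) = 1 + L.ρ (wd [a]))
    (g : (Module.End K L.M)ˣ) (hg : g ∈ Subgroup.closure (Set.range e)) :
    ∃ f : F r, NC f ∧ (g : Module.End K L.M) = 1 + L.ρ f := by
  have key : (∃ f : F r, NC f ∧ (g : Module.End K L.M) = 1 + L.ρ f) ∧
      (∃ f : F r, NC f ∧ ((g⁻¹ : (Module.End K L.M)ˣ) : Module.End K L.M) = 1 + L.ρ f) := by
    induction hg using Subgroup.closure_induction with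
    | mem x hx =>
      obtain ⟨a, rfl⟩ := hx
      refine ⟨⟨wd [a], NC_wd [a] (by simp), he a⟩, ?_⟩
      obtain ⟨N, hN⟩ := letter_nilpotent hr L a
      obtain ⟨f, hf, h⟩ := POLY_geom L a N
      refine ⟨f, hf, ?_⟩
      rw [pow_succ, hN, zero_mul, add_zero, ← he a] at h
      have h2 : ((e a)⁻¹ : (Module.End K L.M)ˣ) * ((e a : (Module.End K L.M)ˣ) *
          (1 + L.ρ f)) = (((e a)⁻¹ : (Module.End K L.M)ˣ) : Module.End K L.M) * 1 := by
        rw [h]
      rw [Units.inv_mul_cancel_left, mul_one] at h2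
      exact h2.symm
    | one => exact ⟨⟨0, POLY_zero, by simp⟩, ⟨0, POLY_zero, by simp⟩⟩
    | mul x y _ _ hx hy =>
      obtain ⟨⟨f, hf, hfx⟩, ⟨f', hf', hfx'⟩⟩ := hx
      obtain ⟨⟨g, hg, hgy⟩, ⟨g', hg', hgy'⟩⟩ := hy
      refine ⟨⟨f + g + f * g, (hf.add hg).add (hg.mul_left f), ?_⟩,
        ⟨g' + f' + g' * f', (hg'.add hf').add (hf'.mul_left g'), ?_⟩⟩
      · rw [Units.val_mul, hfx, hgy, map_add, map_add, map_mul]
        noncomm_ring
      · rw [mul_inv_rev, Units.val_mul, hfx', hgy', map_add, map_add, map_mul]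
        noncomm_ring
    | inv x _ hx =>
      rw [inv_inv]
      exact ⟨hx.2, hx.1⟩
  exact key.1

end TAR
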