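import Pool.Agent.TAR.PT

/-! RGEN: subgroups generated by `r` elements are finite. -/

open Module

namespace TAR

variable {r : ℕ}

theorem RGEN_wp_append (u : Fin r → F r) (v w : List (Fin r)) :
    wp u (v ++ w) = wp u v * wp u w := by
  unfold wp
  rw [List.map_append, List.prod_append]

theorem RGEN_zero (L : LinRep r) (u : Fin r → F r) (N : ℕ)
    (hN : ∀ v : List (Fin r), v.length = N → L.ρ (wp u v) = 0) (v : List (Fin r))
    (hv : N ≤ v.length) : L.ρ (wp u v) = 0 := by
  have h1 : v = v.take N ++ v.drop N := (List.take_append_drop N v).symm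
  rw [h1, RGEN_wp_append, map_mul, hN (v.take N) (List.length_take_of_le hv), zero_mul]

theorem RGEN_finite (L : LinRep r) (u : Fin r → F r) (hu : ∀ l, NC (u l)) :
    (Set.range fun v : List (Fin r) => L.ρ (wp u v)).Finite := by
  obtain ⟨N, hN⟩ := L.nil u hu
  have h1 : {v : List (Fin r) | v.length < N}.Finite := List.finite_length_lt (Fin r) N
  refine ((h1.image fun v : List (Fin r) => L.ρ (wp u v)).insert 0).subset ?_
  rintro _ ⟨v, rfl⟩
  rcases lt_or_ge v.length N with h | h
  · exact Set.mem_insert_of_mem _ ⟨v, h, rfl⟩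
  · rw [Set.mem_insert_iff]
    exact Or.inl (RGEN_zero L u N hN v h)

theorem rgen (L : LinRep r) (s : Fin r → (Module.End K L.M)ˣ)
    (hs : ∀ l, ∃ f : F r, NC f ∧ ((s l : (Module.End K L.M)ˣ) : Module.End K L.M) = 1 + L.ρ f) :
    Finite (Subgroup.closure (Set.range s)) := by
  classical
  choose u hu hsu using hs
  set T : Set (Module.End K L.M) := Set.range fun v : List (Fin r) => L.ρ (wp u v) with hT
  have hTfin : T.Finite := RGEN_finite L u hu
  have hone : (1 : Module.End K L.M) ∈ Submodule.span K T := by
    refine Submodule.subset_span ⟨[], ?_⟩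
    show L.ρ (wp u []) = 1
    rw [wp, List.map_nil, List.prod_nil, map_one]
  have hmul : ∀ a b : Module.End K L.M, a ∈ Submodule.span K T → b ∈ Submodule.span K T →
      a * b ∈ Submodule.span K T := by
    intro a b ha hb
    have h1 : a * b ∈ Submodule.span K T * Submodule.span K T := Submodule.mul_mem_mul ha hb
    rw [Submodule.span_mul_span] at h1
    refine Submodule.span_mono ?_ h1
    rintro _ ⟨_, ⟨v, rfl⟩, _, ⟨w, rfl⟩, rfl⟩
    exact ⟨v ++ w, by simp only [RGEN_wp_append, map_mul]⟩
  have hfin : (Submodule.span K T : Set (Module.End K L.M)).Finite := by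
    have : FiniteDimensional K (Submodule.span K T) :=
      FiniteDimensional.span_of_finite K hTfin
    have : Finite (Submodule.span K T) := Module.finite_of_finite K
    exact Set.toFinite _
  let B : Submonoid (Module.End K L.M)ˣ :=
    { carrier := {g | (g : Module.End K L.M) ∈ Submodule.span K T}
      one_mem' := hone
      mul_mem' := by
        intro a b ha hb
        exact hmul _ _ ha hb }
  have hBfin : (B : Set (Module.End K L.M)ˣ).Finite :=
    Set.Finite.preimage (f := (Units.val : (Module.End K L.M)ˣ → Module.End K L.M))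
      (s := (Submodule.span K T : Set (Module.End K L.M))) (Units.val_injective.injOn) hfin
  have : Finite B := hBfin
  have hinv : ∀ g ∈ B, g⁻¹ ∈ B := by
    intro g hg
    obtain ⟨m, n, hmn, hgg⟩ := Finite.exists_ne_map_eq_of_infinite
      (fun n : ℕ => (⟨g ^ n, B.pow_mem hg n⟩ : B))
    have hgg' : g ^ m = g ^ n := congrArg Subtype.val hgg
    have key : ∀ m n : ℕ, m < n → g ^ m = g ^ n → g⁻¹ ∈ B := by
      intro m n hlt h
      obtain ⟨k, rfl⟩ := Nat.exists_eq_add_of_lt hlt
      have h1 : g ^ (k + 1) = 1 := by
        have h2 : g ^ m * g ^ (k + 1) = g ^ m * 1 := by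
          rw [← pow_add, mul_one, h]
          rfl
        exact mul_left_cancel h2
      have h3 : g⁻¹ = g ^ k := by
        rw [inv_eq_iff_mul_eq_one, ← pow_succ']
        exact h1
      rw [h3]
      exact B.pow_mem hg k
    rcases lt_or_gt_of_ne hmn with h | h
    · exact key m n h hgg'
    · exact key n m h hgg'.symm
  let H : Subgroup (Module.End K L.M)ˣ := { B with inv_mem' := fun {g} hg => hinv g hg }
  have hle : Subgroup.closure (Set.range s) ≤ H := by
    rw [Subgroup.closure_le]
    rintro _ ⟨l, rfl⟩
    show ((s l : (Module.End K L.M)ˣ) : Module.End K L.M) ∈ Submodule.span K T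
    rw [hsu l]
    refine Submodule.add_mem _ hone (Submodule.subset_span ⟨[l], ?_⟩)
    show L.ρ (wp u [l]) = L.ρ (u l)
    rw [wp, List.map_cons, List.map_nil, List.prod_cons, List.prod_nil, mul_one]
  have hHfin : (H : Set (Module.End K L.M)ˣ).Finite := hBfin
  exact (hHfin.subset hle).to_subtype

end TAR
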