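import Pool.Agent.TAR.MFIL

/-! TRUNC: finite 2-group quotients separating a finite set. -/

open Module

namespace TAR

variable {r : ℕ}

private theorem fil_mono (L : LinRep r) {a b : ℕ} (h : a ≤ b) : L.Fil b ≤ L.Fil a := by
  induction h with
  | refl => exact le_rfl
  | step _ ih => exact (L.fil_anti _).trans ih

private theorem one_add_pow_two {A : Type} [Ring A] (h2 : ∀ x : A, x + x = 0) (ν : A) (k : ℕ) :
    (1 + ν) ^ (2 ^ k) = 1 + ν ^ (2 ^ k) := by
  induction k with
  | zero => simp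
  | succ k ih =>
    rw [pow_succ, pow_mul, ih, pow_mul, sq, sq]
    have : (1 + ν ^ 2 ^ k) * (1 + ν ^ 2 ^ k)
        = 1 + (ν ^ 2 ^ k + ν ^ 2 ^ k) + ν ^ 2 ^ k * ν ^ 2 ^ k := by
      noncomm_ring
    rw [this, h2, add_zero]

private theorem maps_fil (L : LinRep r) (g : Module.End K L.M)
    (hg : ∃ f : F r, NC f ∧ g = 1 + L.ρ f) (N : ℕ) : L.Fil N ≤ (L.Fil N).comap g := by
  obtain ⟨f, hf, rfl⟩ := hg
  intro m hm
  have h1 : L.ρ f m ∈ L.Fil N := L.fil_anti N (map_fil L f hf N m hm)
  have h2 : (1 + L.ρ f) m = m + L.ρ f m := by simp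
  rw [Submodule.mem_comap, h2]
  exact add_mem hm h1

theorem trunc (L : LinRep r) (G : Subgroup (Module.End K L.M)ˣ)
    (hG : ∀ g ∈ G, ∃ f : F r, NC f ∧ (g : Module.End K L.M) = 1 + L.ρ f) (S : Finset G) :
    ∃ (Q : Type) (_ : Group Q) (_ : Finite Q) (π : G →* Q), IsPGroup 2 Q ∧
      Set.InjOn π (S : Set G) := by
  classical
  -- a level separating the elements of `S`
  obtain ⟨N, hN⟩ : ∃ N : ℕ, ∀ g ∈ S, ∀ g' ∈ S, g ≠ g' →
      ∃ m : L.M, ((g : (Module.End K L.M)ˣ) : Module.End K L.M) m -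
        ((g' : (Module.End K L.M)ˣ) : Module.End K L.M) m ∉ L.Fil N := by
    have h1 : ∀ g g' : G, ∃ n : ℕ, g ≠ g' →
        ∃ m : L.M, ((g : (Module.End K L.M)ˣ) : Module.End K L.M) m -
          ((g' : (Module.End K L.M)ˣ) : Module.End K L.M) m ∉ L.Fil n := by
      intro g g'
      by_cases hgg : g = g'
      · exact ⟨0, fun h => absurd hgg h⟩
      · have h2 : ∃ m : L.M, ((g : (Module.End K L.M)ˣ) : Module.End K L.M) m ≠
            ((g' : (Module.End K L.M)ˣ) : Module.End K L.M) m := by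
          by_contra hcon
          push Not at hcon
          exact hgg (Subtype.ext (Units.ext (LinearMap.ext hcon)))
        obtain ⟨m, hm⟩ := h2
        have h3 : ∃ n, ((g : (Module.End K L.M)ˣ) : Module.End K L.M) m -
            ((g' : (Module.End K L.M)ˣ) : Module.End K L.M) m ∉ L.Fil n := by
          by_contra hcon
          push Not at hcon
          exact hm (sub_eq_zero.1 (L.fil_inf _ hcon))
        obtain ⟨n, hn⟩ := h3
        exact ⟨n, fun _ => ⟨m, hn⟩⟩
    choose n hn using h1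
    refine ⟨S.sup fun g => S.sup fun g' => n g g', fun g hg g' hg' hne => ?_⟩
    obtain ⟨m, hm⟩ := hn g g' hne
    refine ⟨m, fun hmem => hm (fil_mono L ?_ hmem)⟩
    exact (Finset.le_sup (f := fun g' => n g g') hg').trans
      (Finset.le_sup (f := fun g => S.sup fun g' => n g g') hg)
  -- the quotient representation
  have hmap : ∀ g : G, L.Fil N ≤
      (L.Fil N).comap (((g : (Module.End K L.M)ˣ) : Module.End K L.M)) := fun g =>
    maps_fil L _ (hG g.1 g.2) N
  let φ : G →* Module.End K (L.M ⧸ L.Fil N) :=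
    { toFun := fun g => (L.Fil N).mapQ (L.Fil N) _ (hmap g)
      map_one' := by
        apply LinearMap.ext
        intro x
        obtain ⟨m, rfl⟩ := Submodule.mkQ_surjective _ x
        simp
      map_mul' := by
        intro g h
        apply LinearMap.ext
        intro x
        obtain ⟨m, rfl⟩ := Submodule.mkQ_surjective _ x
        simp }
  have hφ : ∀ (g : G) (m : L.M), φ g ((L.Fil N).mkQ m) =
      (L.Fil N).mkQ (((g : (Module.End K L.M)ˣ) : Module.End K L.M) m) := fun g m => rfl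
  have hfin : Finite (L.M ⧸ L.Fil N) := L.fil_fin N
  have hfinE : Finite (Module.End K (L.M ⧸ L.Fil N)) :=
    Finite.of_injective (fun f : Module.End K (L.M ⧸ L.Fil N) => (f : _ → _))
      DFunLike.coe_injective
  have hfinU : Finite (Module.End K (L.M ⧸ L.Fil N))ˣ :=
    Finite.of_injective (fun u => (u : Module.End K (L.M ⧸ L.Fil N))) (fun _ _ h => Units.ext h)
  let Pi1 : G →* (Module.End K (L.M ⧸ L.Fil N))ˣ := MonoidHom.toHomUnits φ
  have hPi1 : ∀ g, ((Pi1 g : (Module.End K (L.M ⧸ L.Fil N))ˣ) :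
      Module.End K (L.M ⧸ L.Fil N)) = φ g := fun g => rfl
  have h2 : ∀ x : Module.End K (L.M ⧸ L.Fil N), x + x = 0 := by
    intro x
    have h : ((1 : K) + 1) • x = 0 := by
      have : ((1 : K) + 1) = 0 := by decide
      rw [this, zero_smul]
    rw [add_smul, one_smul] at h
    exact h
  refine ⟨Pi1.range, inferInstance, inferInstance, Pi1.rangeRestrict, ?_, ?_⟩
  · rintro ⟨q, g, rfl⟩
    refine ⟨N, Subtype.ext (Units.ext ?_)⟩
    obtain ⟨f, hf, hgf⟩ := hG g.1 g.2
    change ((Pi1 g ^ 2 ^ N : (Module.End K (L.M ⧸ L.Fil N))ˣ) :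
      Module.End K (L.M ⧸ L.Fil N)) = 1
    rw [Units.val_pow_eq_pow_val, hPi1]
    have hν : φ g = 1 + (φ g - 1) := by abel
    rw [hν, one_add_pow_two h2]
    -- the nilpotent part
    have hnil : ∀ (k : ℕ) (m : L.M), ∃ m' ∈ L.Fil k,
        ((φ g - 1) ^ k) ((L.Fil N).mkQ m) = (L.Fil N).mkQ m' := by
      intro k
      induction k with
      | zero =>
        intro m
        exact ⟨m, by rw [L.fil_zero]; trivial, by simp⟩
      | succ k ih =>
        intro m
        obtain ⟨m', hm', he⟩ := ih m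
        refine ⟨L.ρ f m', map_fil L f hf k m' hm', ?_⟩
        rw [pow_succ', Module.End.mul_apply, he]
        rw [LinearMap.sub_apply, hφ, hgf, Module.End.one_apply, ← map_sub]
        congr 1
        simp
    have hzero : (φ g - 1) ^ N = 0 := by
      apply LinearMap.ext
      intro x
      obtain ⟨m, rfl⟩ := Submodule.mkQ_surjective _ x
      obtain ⟨m', hm', he⟩ := hnil N m
      rw [he, LinearMap.zero_apply]
      exact (Submodule.Quotient.mk_eq_zero _).2 hm'
    have hle : N ≤ 2 ^ N := Nat.lt_two_pow_self.le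
    rw [← Nat.sub_add_cancel hle, pow_add, hzero, mul_zero, add_zero]
  · intro g hg g' hg' he
    by_contra hne
    obtain ⟨m, hm⟩ := hN g hg g' hg' hne
    apply hm
    have h3 : Pi1 g = Pi1 g' := congrArg Subtype.val he
    have h4 : φ g = φ g' := by rw [← hPi1, ← hPi1, h3]
    have h5 := LinearMap.congr_fun h4 ((L.Fil N).mkQ m)
    rw [hφ, hφ] at h5
    exact (Submodule.Quotient.eq _).1 h5

end TAR
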