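import Pool.Agent.TAR.GR

/-! GRS: the dimension formula. -/

open Module

namespace TAR

variable {r : ℕ} {P : ℕ → Submodule K (F r)}

theorem GRS_anti (D : QData r P) {m n : ℕ} (h : m ≤ n) : D.Fil n ≤ D.Fil m := by
  induction n, h using Nat.le_induction with
  | base => exact le_rfl
  | succ n _ ih => exact (Fil_succ D n ▸ inf_le_left : D.Fil (n + 1) ≤ D.Fil n).trans ih

theorem GRS_partial (hP : LeftClosed r P) (D : QData r P)
    (V : Submodule K (F r ⧸ PI P)) [FiniteDimensional K V] (M : ℕ) :
    finrank K V = ∑ n ∈ Finset.range M, rd (D.gr V n) (P n) +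
      finrank K (V ⊓ D.Fil M : Submodule K (F r ⧸ PI P)) := by
  induction M with
  | zero => rw [Fil_zero, inf_top_eq, Finset.sum_range_zero, zero_add]
  | succ M ih =>
    rw [Finset.sum_range_succ, ih, finrank_inf_Fil hP D V M]
    omega

/-- the dimension is the sum of the dimensions of the leading parts -/
theorem finrank_eq_sum (hP : LeftClosed r P) (D : QData r P)
    (V : Submodule K (F r ⧸ PI P)) [FiniteDimensional K V] :
    ∃ N, ∀ M, N ≤ M → finrank K V = ∑ n ∈ Finset.range M, rd (D.gr V n) (P n) := by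
  obtain ⟨N, hN⟩ := exists_inf_Fil_eq_bot hP D V
  refine ⟨N, fun M hM => ?_⟩
  have h := GRS_partial hP D V M
  have h2 : V ⊓ D.Fil M = ⊥ := by
    rw [eq_bot_iff, ← hN]
    exact inf_le_inf_left V (GRS_anti D hM)
  rw [h2, finrank_bot, add_zero] at h
  exact h

end TAR
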