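import Pool.Agent.TAR.GHM
import Pool.Agent.TAR.FAM

/-! IFACE: the linear representation. -/

open Module

namespace TAR

theorem exists_linRep {r : ℕ} (hr : 1 ≤ r) : Nonempty (LinRep r) := by
  obtain ⟨P, hP, h2, h0, hnil⟩ := exists_family hr
  obtain ⟨D⟩ := exists_qdata hP
  refine ⟨{ M := F r ⧸ PI P, ρ := D.ρ, Fil := D.Fil, fil_zero := Fil_zero D,
            fil_anti := fun n => ?_, fil_inf := fun m hm => eq_zero_of_mem_Fil hP D m hm,
            fil_fin := fun n => finite_quot_Fil D n, nontriv := ⟨(PI P).mkQ 1, ?_⟩,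
            fil_map := fun n a m hm => map_mem_Fil hP D n a m hm, gh := ghm hP h2 D,
            nil := fun u hu => ?_ }⟩
  · rw [Fil_succ]
    exact inf_le_left
  · intro h
    have h1 := D.hπ 0 1
    rw [h, map_zero] at h1
    have h2 : (1 : F r) ∈ Fd r 0 := by
      rw [← wd_nil]
      exact wd_mem_Fd []
    rw [part_of_mem h2] at h1
    have h3 : (1 : F r) ∈ P 0 := (Submodule.Quotient.mk_eq_zero _).mp h1.symm
    rw [h0, Submodule.mem_bot] at h3
    exact one_ne_zero h3
  · obtain ⟨N, hN⟩ := hnil u hu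
    refine ⟨N, fun v hv => LinearMap.ext fun m => ?_⟩
    obtain ⟨f, rfl⟩ := (PI P).mkQ_surjective m
    rw [D.hρ, LinearMap.zero_apply]
    exact (Submodule.Quotient.mk_eq_zero _).mpr (hN v hv f)

end TAR
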