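import Pool.Agent.TAR.RD

/-! INTC: intersections of good families are good. -/

open Module

namespace TAR

variable {r : ℕ}

private theorem INTC_X {n : ℕ} {V : Submodule K (F r)} (h : V ≤ Fd r n) :
    XM r * V ≤ Fd r (n + 1) := by
  have h1 : Fd r (n + 1) = Fd r 1 * Fd r n := by rw [Fd_mul, add_comm]
  rw [h1]
  exact mul_le_mul' XM_le h

private theorem INTC_Y {n : ℕ} {V : Submodule K (F r)} (h : V ≤ Fd r n) :
    YM r * V ≤ Fd r (n + 1) := by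
  have h1 : Fd r (n + 1) = Fd r 1 * Fd r n := by rw [Fd_mul, add_comm]
  rw [h1]
  exact mul_le_mul' YM_le h

theorem H2.inf {P Q : ℕ → Submodule K (F r)} {n : ℕ} (hP : H2 r P n) (hQ : H2 r Q n)
    (h0 : Fd r 1 * P n ≤ P (n + 1)) (h1 : Fd r 1 * P (n + 1) ≤ P (n + 2)) :
    H2 r (fun k => P k ⊓ Q k) n := by
  intro V₁ V₂ W₁ W₂ hV₁ hV₂ hW₁ hW₂
  have fV₁ := finiteDimensional_of_le_Fd hV₁
  have fV₂ := finiteDimensional_of_le_Fd hV₂
  have fW₁ := finiteDimensional_of_le_Fd hW₁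
  have fW₂ := finiteDimensional_of_le_Fd hW₂
  have hA : W₁ ⊔ W₂ ⊔ XM r * V₁ ⊔ YM r * V₂ ≤ Fd r (n + 1) :=
    sup_le (sup_le (sup_le hW₁ hW₂) (INTC_X hV₁)) (INTC_Y hV₂)
  have hB : XM r * W₁ ⊔ YM r * W₂ ≤ Fd r (n + 2) := sup_le (INTC_X hW₁) (INTC_Y hW₂)
  have fA := finiteDimensional_of_le_Fd hA
  have fB := finiteDimensional_of_le_Fd hB
  have e1 := hP V₁ V₂ W₁ W₂ hV₁ hV₂ hW₁ hW₂
  have e2 := hQ (V₁ ⊓ P n) (V₂ ⊓ P n) (W₁ ⊓ P (n + 1)) (W₂ ⊓ P (n + 1))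
    (inf_le_left.trans hV₁) (inf_le_left.trans hV₂) (inf_le_left.trans hW₁)
    (inf_le_left.trans hW₂)
  have hA' : (W₁ ⊓ P (n + 1)) ⊔ (W₂ ⊓ P (n + 1)) ⊔ XM r * (V₁ ⊓ P n) ⊔ YM r * (V₂ ⊓ P n) ≤
      (W₁ ⊔ W₂ ⊔ XM r * V₁ ⊔ YM r * V₂) ⊓ P (n + 1) := by
    refine sup_le (sup_le (sup_le ?_ ?_) ?_) ?_
    · exact inf_le_inf_right _ (le_sup_of_le_left (le_sup_of_le_left le_sup_left))
    · exact inf_le_inf_right _ (le_sup_of_le_left (le_sup_of_le_left le_sup_right))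
    · refine le_inf ?_ ?_
      · exact (mul_le_mul' le_rfl inf_le_left).trans (le_sup_of_le_left le_sup_right)
      · exact (mul_le_mul' XM_le inf_le_right).trans h0
    · refine le_inf ?_ ?_
      · exact (mul_le_mul' le_rfl inf_le_left).trans le_sup_right
      · exact (mul_le_mul' YM_le inf_le_right).trans h0
  have hB' : XM r * (W₁ ⊓ P (n + 1)) ⊔ YM r * (W₂ ⊓ P (n + 1)) ≤
      (XM r * W₁ ⊔ YM r * W₂) ⊓ P (n + 2) := by
    refine sup_le ?_ ?_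
    · refine le_inf ?_ ?_
      · exact (mul_le_mul' le_rfl inf_le_left).trans le_sup_left
      · exact (mul_le_mul' XM_le inf_le_right).trans h1
    · refine le_inf ?_ ?_
      · exact (mul_le_mul' le_rfl inf_le_left).trans le_sup_right
      · exact (mul_le_mul' YM_le inf_le_right).trans h1
  have fA' : FiniteDimensional K
      ((W₁ ⊔ W₂ ⊔ XM r * V₁ ⊔ YM r * V₂) ⊓ P (n + 1) : Submodule K (F r)) :=
    finiteDimensional_of_le_Fd (inf_le_left.trans hA)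
  have fB' : FiniteDimensional K
      ((XM r * W₁ ⊔ YM r * W₂) ⊓ P (n + 2) : Submodule K (F r)) :=
    finiteDimensional_of_le_Fd (inf_le_left.trans hB)
  have e3 := rd_mono_left (Q (n + 1)) hA'
  have e4 := rd_mono_left (Q (n + 2)) hB'
  change rd V₁ (P n ⊓ Q n) + rd V₂ (P n ⊓ Q n) + rd W₁ (P (n + 1) ⊓ Q (n + 1)) +
    rd W₂ (P (n + 1) ⊓ Q (n + 1)) ≤
      rd (W₁ ⊔ W₂ ⊔ XM r * V₁ ⊔ YM r * V₂) (P (n + 1) ⊓ Q (n + 1)) +
        rd (XM r * W₁ ⊔ YM r * W₂) (P (n + 2) ⊓ Q (n + 2))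
  rw [rd_inf V₁, rd_inf V₂, rd_inf W₁, rd_inf W₂,
    rd_inf (W₁ ⊔ W₂ ⊔ XM r * V₁ ⊔ YM r * V₂), rd_inf (XM r * W₁ ⊔ YM r * W₂)]
  omega

theorem Good.inf {R : Rels r} {b e : ℕ} {P Q : ℕ → Submodule K (F r)}
    (hP : Good r R b e P) (hQ : Good r R b e Q) : Good r R b e (fun k => P k ⊓ Q k) where
  le n hb he := inf_le_left.trans (hP.le n hb he)
  closed n hb he := le_inf ((mul_le_mul' le_rfl inf_le_left).trans (hP.closed n hb he))
    ((mul_le_mul' le_rfl inf_le_right).trans (hQ.closed n hb he))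
  h2 n hn hb he := H2.inf (hP.h2 n hn hb he) (hQ.h2 n hn hb he)
    (hP.closed n hb (by omega)) (hP.closed (n + 1) (by omega) (by omega))
  rel p hp t hb he := le_inf (hP.rel p hp t hb he) (hQ.rel p hp t hb he)

end TAR
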