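import Pool.Agent.TAR.Defs

/-! LBH: at most r+1 sets. -/

namespace TAR

theorem lb_half {G : Type} [Group G] {r m : ℕ} (h : RFin G r) (hm : m ≤ r + 1)
    (A : Fin m → Set G) (a : Fin m → G) (hd : ∀ i i', i ≠ i' → Disjoint (A i) (A i'))
    (hc : (⋃ i, (fun g => a i * g) '' A i) = Set.univ) : (⋃ i, A i) = Set.univ := by
  classical
  have hcov : ∀ g : G, ∃ (i : Fin m) (z : G), z ∈ A i ∧ a i * z = g := by
    intro g
    have h1 : g ∈ ⋃ i, (fun g => a i * g) '' A i := hc ▸ Set.mem_univ g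
    obtain ⟨i, z, hz, hi⟩ := Set.mem_iUnion.1 h1
    exact ⟨i, z, hz, hi⟩
  obtain ⟨i0, -⟩ := hcov 1
  have hmpos : 0 < m := lt_of_le_of_lt (Nat.zero_le _) i0.2
  let z0 : Fin m := ⟨0, hmpos⟩
  let s : Fin r → G := fun l =>
    if hl : (l : ℕ) + 1 < m then (a z0)⁻¹ * a ⟨(l : ℕ) + 1, hl⟩ else 1
  let H : Subgroup G := Subgroup.closure (Set.range s)
  have hfin : Finite H := h s
  have memH : ∀ i : Fin m, (a z0)⁻¹ * a i ∈ H := by
    intro i
    rcases Nat.eq_zero_or_pos (i : ℕ) with h0 | h0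
    · have hi : i = z0 := Fin.ext h0
      rw [hi]
      simp only [inv_mul_cancel]
      exact H.one_mem
    · have hlt : (i : ℕ) - 1 < r := by
        have := i.2
        omega
      have heq : (i : ℕ) - 1 + 1 = i := by omega
      have hs : s ⟨(i : ℕ) - 1, hlt⟩ = (a z0)⁻¹ * a i := by
        have hl : ((i : ℕ) - 1) + 1 < m := by
          have := i.2
          omega
        have hfi : (⟨(i : ℕ) - 1 + 1, hl⟩ : Fin m) = i := Fin.ext heq
        simp only [s]
        rw [dif_pos hl, hfi]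
      rw [← hs]
      exact Subgroup.subset_closure ⟨_, rfl⟩
  by_contra hne
  obtain ⟨y, hy⟩ : ∃ y, y ∉ ⋃ i, A i := by
    by_contra hcon
    push Not at hcon
    exact hne (Set.eq_univ_iff_forall.2 hcon)
  choose i z hz hi using fun η : H => hcov (a z0 * η * y)
  let φ : H → H := fun η =>
    ⟨((a z0)⁻¹ * a (i η))⁻¹ * η, H.mul_mem (H.inv_mem (memH _)) η.2⟩
  have hφ : ∀ η, ((φ η : H) : G) * y = z η := by
    intro η
    have h1 := hi η
    have h2 : z η = (a (i η))⁻¹ * (a z0 * η * y) := by rw [← h1]; group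
    rw [h2]
    simp only [φ]
    group
  have hinj : Function.Injective φ := by
    intro η η' he
    have h1 : z η = z η' := by rw [← hφ, ← hφ, he]
    have h2 : i η = i η' := by
      by_contra hne'
      exact Set.disjoint_left.1 (hd _ _ hne') (hz η) (h1 ▸ hz η')
    have h3 : (a z0 * η * y : G) = a z0 * η' * y := by
      rw [← hi η, ← hi η', h1, h2]
    have h4 : (η : G) = η' := by
      have := mul_right_cancel h3
      exact mul_left_cancel this
    exact Subtype.ext h4
  have hsurj := Finite.surjective_of_injective hinj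
  obtain ⟨η, hη⟩ := hsurj 1
  have h1 := hφ η
  rw [hη] at h1
  simp only [Subgroup.coe_one, one_mul] at h1
  exact hy (Set.mem_iUnion.2 ⟨i η, h1 ▸ hz η⟩)

end TAR
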