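import Pool.Agent.TAR.PT

/-! MFIL: elements without constant term raise the filtration. -/

open Module

namespace TAR

variable {r : ℕ}

private theorem MFIL_word (L : LinRep r) (w : List (Al r)) (n : ℕ) (m : L.M)
    (hm : m ∈ L.Fil n) : L.ρ (wd w) m ∈ L.Fil n := by
  induction w with
  | nil =>
    rw [wd_nil, map_one]
    exact hm
  | cons a w ih =>
    rw [wd_cons, map_mul]
    exact L.fil_anti n (L.fil_map n a _ ih)

private theorem MFIL_Fd (L : LinRep r) (k : ℕ) (f : F r) (hf : f ∈ Fd r (k + 1)) (n : ℕ)
    (m : L.M) (hm : m ∈ L.Fil n) : L.ρ f m ∈ L.Fil (n + 1) := by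
  unfold Fd at hf
  induction hf using Submodule.span_induction with
  | mem x hx =>
    obtain ⟨w, hw, rfl⟩ := hx
    cases w with
    | nil => simp at hw
    | cons a w =>
      rw [wd_cons, map_mul]
      exact L.fil_map n a _ (MFIL_word L w n m hm)
  | zero =>
    rw [map_zero]
    exact Submodule.zero_mem _
  | add x y _ _ hx hy =>
    rw [map_add, LinearMap.add_apply]
    exact Submodule.add_mem _ hx hy
  | smul c x _ hx =>
    rw [map_smul, LinearMap.smul_apply]
    exact Submodule.smul_mem _ c hx

/-- an element of the free algebra without constant term raises the filtration -/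
theorem map_fil (L : LinRep r) (f : F r) (hf : NC f) (n : ℕ) (m : L.M) (hm : m ∈ L.Fil n) :
    L.ρ f m ∈ L.Fil (n + 1) := by
  obtain ⟨N, _, hN⟩ := exists_sum_part f
  rw [hN, map_sum, LinearMap.sum_apply]
  refine Submodule.sum_mem _ fun k _ => ?_
  cases k with
  | zero =>
    rw [(nc_iff f).mp hf, map_zero]
    exact Submodule.zero_mem _
  | succ k => exact MFIL_Fd L k _ (part_mem _ f) n m hm

end TAR
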