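import Pool.Agent.TAR.LEAST
import Pool.Agent.TAR.GLUE

/-! MUL: capacities multiply. -/

open Module

namespace TAR

variable {r : ℕ}

theorem CapI.mul {R : Rels r} {b c e κ₁ κ₂ : ℕ} (hbc : b ≤ c) (hce : c ≤ e) (hev : Even c)
    (hR : ∀ p ∈ R, p.2 ≤ Fd r p.1) (hdiv : ∀ p ∈ R, 0 < p.1 ∧ p.1 ∣ c)
    (h₁ : CapI r R b c κ₁) (h₂ : CapI r R c e κ₂) : CapI r R b e (κ₁ * κ₂) := by
  intro Y Ω hY hΩ
  obtain ⟨P, hP, hYP, hΩP, hPl⟩ := exists_least (R := R) (b := b) (e := e) hR hY hΩ
  have hU : P c ≤ Fd r c := hP.le c hbc hce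
  have hD : ∀ V : Submodule K (F r), ∃ Q : ℕ → Submodule K (F r), V ≤ Fd r c →
      Good r R b c Q ∧ Y ≤ Q b ∧ V ≤ Q c ∧
      ∀ Q' : ℕ → Submodule K (F r), Good r R b c Q' → Y ≤ Q' b → V ≤ Q' c →
        ∀ n, b ≤ n → n ≤ c → Q n ≤ Q' n := by
    intro V
    by_cases hV : V ≤ Fd r c
    · obtain ⟨Q, h⟩ := exists_least (R := R) (b := b) (e := c) hR hY hV
      exact ⟨Q, fun _ => h⟩
    · exact ⟨fun _ => ⊥, fun h => absurd h hV⟩
  have hC : ∀ V : Submodule K (F r), ∃ Q : ℕ → Submodule K (F r), V ≤ Fd r c →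
      Good r R c e Q ∧ V ≤ Q c ∧ Ω ≤ Q e ∧
      ∀ Q' : ℕ → Submodule K (F r), Good r R c e Q' → V ≤ Q' c → Ω ≤ Q' e →
        ∀ n, c ≤ n → n ≤ e → Q n ≤ Q' n := by
    intro V
    by_cases hV : V ≤ Fd r c
    · obtain ⟨Q, h⟩ := exists_least (R := R) (b := c) (e := e) hR hV hΩ
      exact ⟨Q, fun _ => h⟩
    · exact ⟨fun _ => ⊥, fun h => absurd h hV⟩
  choose D hD using hD
  choose C hC using hC
  have fin : ∀ V : Submodule K (F r), V ≤ P c → FiniteDimensional K V := fun V hV =>
    finiteDimensional_of_le_Fd (hV.trans hU)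
  have finP : FiniteDimensional K (P c) := fin _ le_rfl
  have hDle : ∀ V : Submodule K (F r), V ≤ P c → D V c ≤ P c := fun V hV =>
    (hD V (hV.trans hU)).2.2.2 P (hP.restrict le_rfl hce) hYP hV c hbc le_rfl
  have hCle : ∀ V : Submodule K (F r), V ≤ P c → C V c ≤ P c := fun V hV =>
    (hC V (hV.trans hU)).2.2.2 P (hP.restrict hbc le_rfl) hV hΩP c le_rfl hce
  have hDmono : ∀ V W : Submodule K (F r), V ≤ W → W ≤ P c → D V c ≤ D W c := by
    intro V W hVW hW
    have hW' := hD W (hW.trans hU)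
    exact (hD V ((hVW.trans hW).trans hU)).2.2.2 (D W) hW'.1 hW'.2.1
      (hVW.trans hW'.2.2.1) c hbc le_rfl
  have hCmono : ∀ V W : Submodule K (F r), V ≤ W → W ≤ P c → C V c ≤ C W c := by
    intro V W hVW hW
    have hW' := hC W (hW.trans hU)
    exact (hC V ((hVW.trans hW).trans hU)).2.2.2 (C W) hW'.1 (hVW.trans hW'.2.1)
      hW'.2.2.1 c le_rfl hce
  -- a pair of maximal dimension
  let A : Set (Submodule K (F r) × Submodule K (F r)) :=
    {q | q.1 ≤ P c ∧ q.2 ≤ P c ∧ Disjoint q.1 q.2 ∧ q.1 ⊔ q.2 ≤ D q.1 c ∧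
      q.1 ⊔ q.2 ≤ C q.2 c}
  have hA0 : A.Nonempty := by
    refine ⟨(⊥, ⊥), bot_le, bot_le, disjoint_bot_left, ?_, ?_⟩
    · simp
    · simp
  obtain ⟨⟨O, Z⟩, hq, hmax⟩ := WellFounded.has_min
    (measure fun q : Submodule K (F r) × Submodule K (F r) =>
      finrank K (P c) - finrank K (q.1 ⊔ q.2 : Submodule K (F r))).wf A hA0
  obtain ⟨hO, hZ, hdis, hOD, hZC⟩ := hq
  simp only at hO hZ hdis hOD hZC
  have hOZ : O ⊔ Z ≤ P c := sup_le hO hZ
  have hnomore : ∀ O' Z' : Submodule K (F r), (O', Z') ∈ A → ¬ (O ⊔ Z < O' ⊔ Z') := by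
    intro O' Z' hA' hlt
    have h1 : O' ⊔ Z' ≤ P c := sup_le hA'.1 hA'.2.1
    haveI := fin _ h1
    have h2 : finrank K (O ⊔ Z : Submodule K (F r)) <
        finrank K (O' ⊔ Z' : Submodule K (F r)) := Submodule.finrank_lt_finrank_of_lt hlt
    have h3 : finrank K (O' ⊔ Z' : Submodule K (F r)) ≤ finrank K (P c) :=
      Submodule.finrank_mono h1
    apply hmax (O', Z') hA'
    change finrank K (P c) - finrank K (O' ⊔ Z' : Submodule K (F r)) <
      finrank K (P c) - finrank K (O ⊔ Z : Submodule K (F r))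
    omega
  have hDeq : D O c = O ⊔ Z := by
    apply le_antisymm _ hOD
    intro v hv
    by_contra hvn
    have hvP : v ∈ P c := hDle O hO hv
    have hsp : Submodule.span K {v} ≤ P c := by
      rw [Submodule.span_singleton_le_iff_mem]; exact hvP
    have hv0 : v ≠ 0 := by
      rintro rfl
      exact hvn (Submodule.zero_mem _)
    have hdis2 : Disjoint (O ⊔ Z) (Submodule.span K {v}) :=
      (Submodule.disjoint_span_singleton' hv0).2 hvn
    refine hnomore O (Z ⊔ Submodule.span K {v}) ?_ ?_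
    · refine ⟨hO, sup_le hZ hsp, ?_, ?_, ?_⟩
      · exact Disjoint.disjoint_sup_right_of_disjoint_sup_left hdis hdis2
      · simp only
        rw [← sup_assoc]
        refine sup_le hOD ?_
        rw [Submodule.span_singleton_le_iff_mem]; exact hv
      · simp only
        have h1 : C Z c ≤ C (Z ⊔ Submodule.span K {v}) c :=
          hCmono _ _ le_sup_left (sup_le hZ hsp)
        have h2 : Z ⊔ Submodule.span K {v} ≤ C (Z ⊔ Submodule.span K {v}) c :=
          (hC _ ((sup_le hZ hsp).trans hU)).2.1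
        refine sup_le ((le_sup_left.trans hZC).trans h1) h2
    · rw [← sup_assoc]
      refine lt_of_le_of_ne le_sup_left ?_
      intro heq
      apply hvn
      rw [heq]
      exact le_sup_right (a := O ⊔ Z) (Submodule.mem_span_singleton_self v)
  have hCeq : C Z c = O ⊔ Z := by
    apply le_antisymm _ hZC
    intro v hv
    by_contra hvn
    have hvP : v ∈ P c := hCle Z hZ hv
    have hsp : Submodule.span K {v} ≤ P c := by
      rw [Submodule.span_singleton_le_iff_mem]; exact hvP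
    have hv0 : v ≠ 0 := by
      rintro rfl
      exact hvn (Submodule.zero_mem _)
    have hdis2 : Disjoint (Z ⊔ O) (Submodule.span K {v}) := by
      rw [sup_comm]
      exact (Submodule.disjoint_span_singleton' hv0).2 hvn
    refine hnomore (O ⊔ Submodule.span K {v}) Z ?_ ?_
    · refine ⟨sup_le hO hsp, hZ, ?_, ?_, ?_⟩
      · exact (Disjoint.disjoint_sup_right_of_disjoint_sup_left hdis.symm hdis2).symm
      · simp only
        have h1 : D O c ≤ D (O ⊔ Submodule.span K {v}) c :=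
          hDmono _ _ le_sup_left (sup_le hO hsp)
        have h2 : O ⊔ Submodule.span K {v} ≤ D (O ⊔ Submodule.span K {v}) c :=
          (hD _ ((sup_le hO hsp).trans hU)).2.2.1
        refine sup_le h2 ((le_sup_right.trans hOD).trans h1)
      · simp only
        refine sup_le (sup_le (le_sup_left.trans hZC) ?_) (le_sup_right.trans hZC)
        rw [Submodule.span_singleton_le_iff_mem]; exact hv
    · refine lt_of_le_of_ne (sup_le_sup_right le_sup_left _) ?_
      intro heq
      apply hvn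
      rw [heq]
      exact (le_sup_right.trans le_sup_left : Submodule.span K {v} ≤ _)
        (Submodule.mem_span_singleton_self v)
  have hGD := hD O (hO.trans hU)
  have hGC := hC Z (hZ.trans hU)
  -- the glued family
  have hPc : P c ≤ O ⊔ Z := by
    have hG := hGD.1.glue hGC.1 (hDeq.trans hCeq.symm) hev hdiv
    have h := hPl _ hG ?_ ?_ c hbc hce
    · simpa [hDeq] using h
    · simpa [hbc] using hGD.2.1
    · by_cases hec : e ≤ c
      · have hec' : e = c := le_antisymm hec hce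
        subst hec'
        simp only [le_refl, if_true]
        rw [hDeq, ← hCeq]
        exact hGC.2.2.1
      · simpa [hec] using hGC.2.2.1
  have hPeq : P c = O ⊔ Z := le_antisymm hPc hOZ
  haveI := fin _ hO
  haveI := fin _ hZ
  have hdim : finrank K (P c) = finrank K O + finrank K Z := by
    have h := Submodule.finrank_sup_add_finrank_inf_eq O Z
    rw [hdis.eq_bot, finrank_bot, add_zero] at h
    rw [hPeq]; exact h
  have hκ₂ : κ₂ * finrank K O ≤ finrank K Ω := by
    obtain ⟨P', hP', hZP', hΩP', hb⟩ := h₂ Z Ω (hZ.trans hU) hΩ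
    have h1 : C Z c ≤ P' c := hGC.2.2.2 P' hP' hZP' hΩP' c le_rfl hce
    rw [hCeq, ← hPeq] at h1
    haveI : FiniteDimensional K (P' c) :=
      finiteDimensional_of_le_Fd (hP'.le c le_rfl hce)
    have h2 : finrank K (P c) ≤ finrank K (P' c) := Submodule.finrank_mono h1
    refine le_trans (Nat.mul_le_mul_left _ ?_) hb
    omega
  obtain ⟨P', hP', hYP', hOP', hb⟩ := h₁ Y O hY (hO.trans hU)
  have h1 : D O b ≤ P' b := hGD.2.2.2 P' hP' hYP' hOP' b le_rfl hbc
  have hPb : P b ≤ D O b := by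
    have hG := hGD.1.glue (hP.restrict hbc le_rfl) (hDeq.trans hPeq.symm) hev hdiv
    have h := hPl _ hG ?_ ?_ b le_rfl (hbc.trans hce)
    · simpa [hbc] using h
    · simpa [hbc] using hGD.2.1
    · by_cases hec : e ≤ c
      · have hec' : e = c := le_antisymm hec hce
        subst hec'
        simp only [le_refl, if_true]
        rw [hDeq, ← hPeq]
        exact hΩP
      · simpa [hec] using hΩP
  haveI : FiniteDimensional K (P' b) := finiteDimensional_of_le_Fd (hP'.le b le_rfl hbc)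
  have h2 : finrank K (P b) ≤ finrank K (P' b) := Submodule.finrank_mono (hPb.trans h1)
  refine ⟨P, hP, hYP, hΩP, ?_⟩
  calc κ₁ * κ₂ * (finrank K (P b) - finrank K Y)
      = κ₂ * (κ₁ * (finrank K (P b) - finrank K Y)) := by ring
    _ ≤ κ₂ * (κ₁ * (finrank K (P' b) - finrank K Y)) :=
        Nat.mul_le_mul_left _ (Nat.mul_le_mul_left _ (Nat.sub_le_sub_right h2 _))
    _ ≤ κ₂ * finrank K O := Nat.mul_le_mul_left _ hb
    _ ≤ finrank K Ω := hκ₂

end TAR
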