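import Mathlib

/-! NUM: exponential beats polynomial. -/

namespace TAR

theorem num {r H κ : ℕ} (hr : 1 ≤ r) (hH : 0 < H) (hκ : r ^ H < κ) (C : ℕ) :
    ∃ T : ℕ, 2 ≤ T ∧
      r ^ (T * H) + C * (∑ n ∈ Finset.range (T * H + 1), r ^ n) < κ ^ T := by
  have _ := hH
  have hb : (0 : ℝ) < κ := by exact_mod_cast (Nat.zero_le _).trans_lt hκ
  have ha : (0 : ℝ) < (r : ℝ) ^ H := by
    have : (0 : ℝ) < r := by exact_mod_cast hr
    positivity
  have hab : ((r : ℝ) ^ H) < κ := by exact_mod_cast hκ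
  set q : ℝ := (r : ℝ) ^ H / κ with hq
  have hq0 : 0 < q := div_pos ha hb
  have hq1 : q < 1 := (div_lt_one hb).mpr hab
  have habs : |q| < 1 := by rwa [abs_of_pos hq0]
  have h1 := tendsto_pow_const_mul_const_pow_of_abs_lt_one 0 habs
  have h2 := tendsto_pow_const_mul_const_pow_of_abs_lt_one 1 habs
  have h3 := (h1.const_mul (1 + C : ℝ)).add (h2.const_mul (C * H : ℝ))
  rw [mul_zero, mul_zero, add_zero] at h3
  have h4 := h3.eventually (gt_mem_nhds (zero_lt_one))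
  obtain ⟨T, hT, hT2⟩ := (h4.and (Filter.eventually_ge_atTop 2)).exists
  refine ⟨T, hT2, ?_⟩
  have h5 : ∑ n ∈ Finset.range (T * H + 1), r ^ n ≤ (T * H + 1) * r ^ (T * H) := by
    calc ∑ n ∈ Finset.range (T * H + 1), r ^ n ≤ ∑ _n ∈ Finset.range (T * H + 1), r ^ (T * H) := by
          refine Finset.sum_le_sum fun n hn => ?_
          rw [Finset.mem_range] at hn
          exact Nat.pow_le_pow_right hr (by omega)
      _ = (T * H + 1) * r ^ (T * H) := by simp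
  have h6 : r ^ (T * H) + C * (∑ n ∈ Finset.range (T * H + 1), r ^ n) ≤
      r ^ (T * H) + C * ((T * H + 1) * r ^ (T * H)) :=
    Nat.add_le_add_left (Nat.mul_le_mul_left _ h5) _
  refine h6.trans_lt ?_
  have h7 : ((r ^ (T * H) + C * ((T * H + 1) * r ^ (T * H)) : ℕ) : ℝ) < ((κ ^ T : ℕ) : ℝ) := by
    push_cast
    have h8 : (r : ℝ) ^ (T * H) = q ^ T * (κ : ℝ) ^ T := by
      rw [← mul_pow, hq, div_mul_cancel₀ _ hb.ne', ← pow_mul, mul_comm T H]
    rw [h8]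
    have h9 : (0 : ℝ) < (κ : ℝ) ^ T := by positivity
    have h10 : q ^ T * (κ : ℝ) ^ T + C * ((T * H + 1) * (q ^ T * (κ : ℝ) ^ T)) =
        ((1 + C) * ((T : ℝ) ^ 0 * q ^ T) + C * H * ((T : ℝ) ^ 1 * q ^ T)) * (κ : ℝ) ^ T := by
      ring
    rw [h10]
    calc ((1 + C) * ((T : ℝ) ^ 0 * q ^ T) + C * H * ((T : ℝ) ^ 1 * q ^ T)) * (κ : ℝ) ^ T <
          1 * (κ : ℝ) ^ T := mul_lt_mul_of_pos_right hT h9
      _ = (κ : ℝ) ^ T := one_mul _
  exact_mod_cast h7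

end TAR
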