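import Pool.Agent.TAR.MUL

/-! POW: powers of capacities. -/

open Module

namespace TAR

variable {r : ℕ}

theorem CapI.pow {R : Rels r} {H κ : ℕ} (hH : 0 < H) (hev : 2 ∣ H) (hR : RelOK r R H)
    (h : ∀ t : ℕ, CapI r R (t * H) ((t + 1) * H) κ) (T : ℕ) (hT : 0 < T) (t : ℕ) :
    CapI r R (t * H) ((t + T) * H) (κ ^ T) := by
  induction T, hT using Nat.le_induction with
  | base => simpa using h t
  | succ T hT ih =>
    have h2 : CapI r R ((t + T) * H) ((t + (T + 1)) * H) κ := h (t + T)
    rw [pow_succ]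
    refine CapI.mul (Nat.mul_le_mul_right H (Nat.le_add_right t T))
      (Nat.mul_le_mul_right H (by omega)) ?_ (fun p hp => (hR p hp).2.2)
      (fun p hp => ⟨(hR p hp).1, (hR p hp).2.1.mul_left (t + T)⟩) ih h2
    exact (even_iff_two_dvd.mpr hev).mul_left (t + T)

end TAR
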