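import Pool.Agent.TAR.STEP

/-! SEQ: the sequence of states. -/

open Module

namespace TAR

variable {r : ℕ}

/-- a state together with its proof -/
def SEQState (r : ℕ) : Type := {s : Rels r × ℕ × ℕ // IsState r s.1 s.2.1 s.2.2}

theorem SEQ_step (hr : 1 ≤ r) (s : SEQState r) {Ω : ℕ → Submodule K (F r)}
    (hΩ : SlowRel r Ω) :
    ∃ s' : SEQState r, s.1.2.1 ∣ s'.1.2.1 ∧ 2 * s.1.2.1 ≤ s'.1.2.1 ∧
      s'.1.1 = insert (s'.1.2.1, Ω s'.1.2.1) s.1.1 := by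
  obtain ⟨H', κ', h1, h2, h3⟩ := state_step hr s.2 hΩ
  exact ⟨⟨(insert (H', Ω H') s.1.1, H', κ'), h3⟩, h1, h2, rfl⟩

/-- the sequence of states -/
noncomputable def SEQ_seq (hr : 1 ≤ r) (Ω : ℕ → ℕ → Submodule K (F r))
    (hΩ : ∀ i, SlowRel r (Ω i)) : ℕ → SEQState r
  | 0 => ⟨(∅, 2, r * (r + 1)), state_zero hr⟩
  | i + 1 => (SEQ_step hr (SEQ_seq hr Ω hΩ i) (hΩ i)).choose

theorem SEQ_seq_spec (hr : 1 ≤ r) (Ω : ℕ → ℕ → Submodule K (F r))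
    (hΩ : ∀ i, SlowRel r (Ω i)) (i : ℕ) :
    (SEQ_seq hr Ω hΩ i).1.2.1 ∣ (SEQ_seq hr Ω hΩ (i + 1)).1.2.1 ∧
    2 * (SEQ_seq hr Ω hΩ i).1.2.1 ≤ (SEQ_seq hr Ω hΩ (i + 1)).1.2.1 ∧
    (SEQ_seq hr Ω hΩ (i + 1)).1.1 =
      insert ((SEQ_seq hr Ω hΩ (i + 1)).1.2.1, Ω i (SEQ_seq hr Ω hΩ (i + 1)).1.2.1)
        (SEQ_seq hr Ω hΩ i).1.1 :=
  (SEQ_step hr (SEQ_seq hr Ω hΩ i) (hΩ i)).choose_spec

theorem exists_states (hr : 1 ≤ r) (Ω : ℕ → ℕ → Submodule K (F r))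
    (hΩ : ∀ i, SlowRel r (Ω i)) :
    ∃ (R : ℕ → Rels r) (H κ : ℕ → ℕ), (∀ i, IsState r (R i) (H i) (κ i)) ∧
      (∀ i, R i ⊆ R (i + 1)) ∧ (∀ i, H i ∣ H (i + 1)) ∧ (∀ i, i < H i) ∧
      (∀ i, (H (i + 1), Ω i (H (i + 1))) ∈ R (i + 1)) := by
  refine ⟨fun i => (SEQ_seq hr Ω hΩ i).1.1, fun i => (SEQ_seq hr Ω hΩ i).1.2.1,
    fun i => (SEQ_seq hr Ω hΩ i).1.2.2, fun i => (SEQ_seq hr Ω hΩ i).2, ?_, ?_, ?_, ?_⟩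
  · intro i
    show (SEQ_seq hr Ω hΩ i).1.1 ⊆ (SEQ_seq hr Ω hΩ (i + 1)).1.1
    rw [(SEQ_seq_spec hr Ω hΩ i).2.2]
    exact Set.subset_insert _ _
  · intro i
    exact (SEQ_seq_spec hr Ω hΩ i).1
  · intro i
    show i < (SEQ_seq hr Ω hΩ i).1.2.1
    induction i with
    | zero => exact (SEQ_seq hr Ω hΩ 0).2.pos
    | succ i ih =>
      have := (SEQ_seq_spec hr Ω hΩ i).2.1
      omega
  · intro i
    show ((SEQ_seq hr Ω hΩ (i + 1)).1.2.1, Ω i (SEQ_seq hr Ω hΩ (i + 1)).1.2.1) ∈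
      (SEQ_seq hr Ω hΩ (i + 1)).1.1
    rw [(SEQ_seq_spec hr Ω hΩ i).2.2]
    exact Set.mem_insert _ _

end TAR
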