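import Pool.Agent.TAR.POW
import Pool.Agent.TAR.ADD
import Pool.Agent.TAR.NUM
import Pool.Agent.TAR.BL

/-! STEP: the states of the construction. -/

open Module

namespace TAR

variable {r : ℕ}

theorem state_zero (hr : 1 ≤ r) : IsState r (∅ : Rels r) 2 (r * (r + 1)) where
  rels := fun p hp => absurd hp (Set.notMem_empty p)
  even := dvd_refl 2
  pos := two_pos
  big := by nlinarith
  cap := fun t => by
    have h := base_cap (r := r) (t * 2) ⟨t, by ring⟩
    have e : (t + 1) * 2 = t * 2 + 2 := by ring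
    rw [e]
    exact h

theorem state_step (hr : 1 ≤ r) {R : Rels r} {H κ : ℕ} (hS : IsState r R H κ)
    {Ω : ℕ → Submodule K (F r)} (hΩ : SlowRel r Ω) :
    ∃ H' κ' : ℕ, H ∣ H' ∧ 2 * H ≤ H' ∧ IsState r (insert (H', Ω H') R) H' κ' := by
  obtain ⟨hΩle, C, hC⟩ := hΩ
  obtain ⟨T, hT2, hT⟩ := num hr hS.pos hS.big C
  have hT0 : 0 < T := by omega
  have hH' : 0 < T * H := Nat.mul_pos hT0 hS.pos
  refine ⟨T * H, κ ^ T - finrank K (Ω (T * H)), Dvd.intro_left T rfl,
    Nat.mul_le_mul_right H hT2, ?_⟩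
  refine ⟨?_, hS.even.mul_left T, hH', ?_, ?_⟩
  · intro p hp
    rcases Set.mem_insert_iff.1 hp with hp | hp
    · subst hp
      exact ⟨hH', dvd_refl _, hΩle _⟩
    · obtain ⟨h1, h2, h3⟩ := hS.rels p hp
      exact ⟨h1, h2.mul_left T, h3⟩
  · have h := hC (T * H)
    omega
  · intro t
    have hR : ∀ p ∈ R, p.2 ≤ Fd r p.1 := fun p hp => (hS.rels p hp).2.2
    have hpow := CapI.pow hS.pos hS.even hS.rels hS.cap T hT0 (t * T)
    have e1 : t * T * H = t * (T * H) := by ring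
    have e2 : (t * T + T) * H = (t + 1) * (T * H) := by ring
    rw [e1, e2] at hpow
    exact CapI.add hH' hR (hΩle _) hpow

end TAR
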