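import Pool.Agent.TAR.VIO

/-! STEPV: adding a violator lowers the potential. -/

open Module

namespace TAR

variable {r : ℕ}

/-- `dim (A ⊔ B) + dim C ≤ dim A + dim B` when `C ≤ A ⊓ B` -/
private theorem STEPV_sup_le {A B C : Submodule K (F r)} [FiniteDimensional K A]
    [FiniteDimensional K B] (hA : C ≤ A) (hB : C ≤ B) :
    finrank K (A ⊔ B : Submodule K (F r)) + finrank K C ≤ finrank K A + finrank K B := by
  rw [← Submodule.finrank_sup_add_finrank_inf_eq A B]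
  have : finrank K C ≤ finrank K (A ⊓ B : Submodule K (F r)) :=
    Submodule.finrank_mono (le_inf hA hB)
  omega

private theorem STEPV_arith (r p0 p1 p2 q0 q1 q2 v1 v2 w1 w2 dA dB s rho : ℤ) (hr : 0 ≤ r)
    (hrho : 0 ≤ rho)
    (h1 : q0 + p0 ≤ v1 + v2) (h2 : q1 + (r + 1) * (v1 + v2) ≤ dA + 2 * (r + 1) * q0)
    (h3 : q2 + (r + 1) * (w1 + w2) ≤ dB + 2 * (r + 1) * q1)
    (hA : dA = s + p1) (hB : dB = rho + p2)
    (h4 : s + rho + 1 ≤ (v1 - p0) + (v2 - p0) + (w1 - p1) + (w2 - p1)) :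
    r * (r + 1) * q0 + (r + 1) * (q1 - 2 * (r + 1) * q0) + (q2 - 2 * (r + 1) * q1) <
      r * (r + 1) * p0 + (r + 1) * (p1 - 2 * (r + 1) * p0) + (p2 - 2 * (r + 1) * p1) := by
  subst hA hB
  have k1 : r * (r + 1) * (q0 + p0) ≤ r * (r + 1) * (v1 + v2) :=
    mul_le_mul_of_nonneg_left h1 (by positivity)
  have k2 : (r + 1) * (q1 + (r + 1) * (v1 + v2)) ≤ (r + 1) * (s + p1 + 2 * (r + 1) * q0) :=
    mul_le_mul_of_nonneg_left h2 (by positivity)
  have k4 : (r + 1) * (s + rho + 1) ≤ (r + 1) * ((v1 - p0) + (v2 - p0) + (w1 - p1) + (w2 - p1)) :=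
    mul_le_mul_of_nonneg_left h4 (by positivity)
  have k5 : 0 ≤ r * rho := by positivity
  linarith [k1, k2, h3, k4, k5]

theorem violator_step {b : ℕ} {P : ℕ → Submodule K (F r)} (hP : LC3 r b P)
    (hv : ¬ H2 r P b) :
    ∃ P' : ℕ → Submodule K (F r), LC3 r b P' ∧ P b ≤ P' b ∧ P (b + 1) ≤ P' (b + 1) ∧
      P (b + 2) ≤ P' (b + 2) ∧ En r b P' < En r b P := by
  obtain ⟨V₁, V₂, W₁, W₂, ⟨hV₁, hV₂, hW₁, hW₂⟩, ⟨gV₁, gV₂, gW₁, gW₂⟩, hlt⟩ :=
    exists_violator hP hv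
  obtain ⟨l0, l1, l2, c0, c1⟩ := hP
  have f1 : Fd r 1 * Fd r b = Fd r (b + 1) := by rw [Fd_mul, add_comm]
  have f2 : Fd r 1 * Fd r (b + 1) = Fd r (b + 2) := by
    rw [Fd_mul]; congr 1; omega
  -- the new spaces
  obtain ⟨Q0, hQ0⟩ : ∃ Q0 : Submodule K (F r), Q0 = V₁ ⊔ V₂ := ⟨_, rfl⟩
  obtain ⟨Q1, hQ1⟩ : ∃ Q1 : Submodule K (F r), Q1 = W₁ ⊔ W₂ ⊔ Fd r 1 * Q0 := ⟨_, rfl⟩
  obtain ⟨Q2, hQ2⟩ : ∃ Q2 : Submodule K (F r), Q2 = P (b + 2) ⊔ Fd r 1 * Q1 := ⟨_, rfl⟩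
  have lQ0 : Q0 ≤ Fd r b := by rw [hQ0]; exact sup_le hV₁ hV₂
  have lQ1 : Q1 ≤ Fd r (b + 1) := by
    rw [hQ1]
    refine sup_le (sup_le hW₁ hW₂) ?_
    rw [← f1]; exact mul_le_mul_right lQ0 _
  have lQ2 : Q2 ≤ Fd r (b + 2) := by
    rw [hQ2]
    refine sup_le l2 ?_
    rw [← f2]; exact mul_le_mul_right lQ1 _
  have : FiniteDimensional K (P b) := finiteDimensional_of_le_Fd l0
  have : FiniteDimensional K (P (b + 1)) := finiteDimensional_of_le_Fd l1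
  have : FiniteDimensional K (P (b + 2)) := finiteDimensional_of_le_Fd l2
  have : FiniteDimensional K V₁ := finiteDimensional_of_le_Fd hV₁
  have : FiniteDimensional K V₂ := finiteDimensional_of_le_Fd hV₂
  have : FiniteDimensional K W₁ := finiteDimensional_of_le_Fd hW₁
  have : FiniteDimensional K W₂ := finiteDimensional_of_le_Fd hW₂
  have : FiniteDimensional K Q0 := finiteDimensional_of_le_Fd lQ0
  have : FiniteDimensional K Q1 := finiteDimensional_of_le_Fd lQ1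
  have : FiniteDimensional K Q2 := finiteDimensional_of_le_Fd lQ2
  obtain ⟨A, hA⟩ : ∃ A : Submodule K (F r), A = W₁ ⊔ W₂ ⊔ XM r * V₁ ⊔ YM r * V₂ := ⟨_, rfl⟩
  obtain ⟨B, hB⟩ : ∃ B : Submodule K (F r), B = XM r * W₁ ⊔ YM r * W₂ := ⟨_, rfl⟩
  rw [← hA, ← hB] at hlt
  have hXV : XM r * V₁ ≤ Fd r 1 * Q0 :=
    mul_le_mul' XM_le (by rw [hQ0]; exact le_sup_left)
  have hYV : YM r * V₂ ≤ Fd r 1 * Q0 :=
    mul_le_mul' YM_le (by rw [hQ0]; exact le_sup_right)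
  have hW1Q : W₁ ≤ Q1 := by rw [hQ1]; exact le_sup_left.trans le_sup_left
  have hW2Q : W₂ ≤ Q1 := by rw [hQ1]; exact le_sup_right.trans le_sup_left
  have hXW : XM r * W₁ ≤ Fd r 1 * Q1 := mul_le_mul' XM_le hW1Q
  have hYW : YM r * W₂ ≤ Fd r 1 * Q1 := mul_le_mul' YM_le hW2Q
  have : FiniteDimensional K A := by rw [hA]; infer_instance
  have : FiniteDimensional K B := by rw [hB]; infer_instance
  -- (i)
  have e1 := STEPV_sup_le (A := V₁) (B := V₂) (C := P b) gV₁ gV₂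
  rw [← hQ0] at e1
  -- (ii)
  have hAQ : A ⊔ Fd r 1 * Q0 = Q1 := by
    rw [hA, hQ1]
    apply le_antisymm
    · refine sup_le (sup_le (sup_le le_sup_left ?_) ?_) le_sup_right
      · exact hXV.trans le_sup_right
      · exact hYV.trans le_sup_right
    · refine sup_le ?_ le_sup_right
      exact (le_sup_left.trans le_sup_left).trans le_sup_left
  have e2 := STEPV_sup_le (A := A) (B := Fd r 1 * Q0) (C := XM r * V₁ ⊔ YM r * V₂)
    (by
      rw [hA]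
      exact sup_le (le_sup_right.trans le_sup_left) le_sup_right)
    (sup_le hXV hYV)
  rw [hAQ, finrank_XY, finrank_Fd_one_mul] at e2
  -- (iii)
  have hBQ : (B ⊔ P (b + 2)) ⊔ Fd r 1 * Q1 = Q2 := by
    rw [hB, hQ2]
    apply le_antisymm
    · refine sup_le (sup_le (sup_le ?_ ?_) le_sup_left) le_sup_right
      · exact hXW.trans le_sup_right
      · exact hYW.trans le_sup_right
    · exact sup_le (le_sup_right.trans le_sup_left) le_sup_right
  have e3 := STEPV_sup_le (A := B ⊔ P (b + 2)) (B := Fd r 1 * Q1) (C := XM r * W₁ ⊔ YM r * W₂)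
    (by rw [hB]; exact le_sup_left) (sup_le hXW hYW)
  rw [hBQ, finrank_XY, finrank_Fd_one_mul, rd_add] at e3
  -- (iv)
  have d1 := rd_of_le gV₁
  have d2 := rd_of_le gV₂
  have d3 := rd_of_le gW₁
  have d4 := rd_of_le gW₂
  have hPA : P (b + 1) ≤ A := by
    rw [hA]; exact gW₁.trans ((le_sup_left.trans le_sup_left).trans le_sup_left)
  have d5 := rd_of_le hPA
  obtain ⟨P', hb0, hb1, hb2⟩ : ∃ P' : ℕ → Submodule K (F r),
      P' b = Q0 ∧ P' (b + 1) = Q1 ∧ P' (b + 2) = Q2 := by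
    refine ⟨fun n => if n = b then Q0 else if n = b + 1 then Q1 else Q2, ?_, ?_, ?_⟩
    · simp
    · simp
    · simp
  refine ⟨P', ?_, ?_, ?_, ?_, ?_⟩
  · unfold LC3
    rw [hb0, hb1, hb2]
    refine ⟨lQ0, lQ1, lQ2, ?_, ?_⟩
    · rw [hQ1]; exact le_sup_right
    · rw [hQ2]; exact le_sup_right
  · rw [hb0, hQ0]; exact gV₁.trans le_sup_left
  · rw [hb1]; exact gW₁.trans hW1Q
  · rw [hb2, hQ2]; exact le_sup_left
  · unfold En
    rw [hb0, hb1, hb2]
    apply STEPV_arith (r : ℤ) _ _ _ _ _ _ (finrank K V₁) (finrank K V₂) (finrank K W₁)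
      (finrank K W₂) (finrank K A) ((rd B (P (b + 2)) + finrank K (P (b + 2)) : ℕ) : ℤ)
      (rd A (P (b + 1))) (rd B (P (b + 2)))
    · positivity
    · positivity
    · exact_mod_cast e1
    · exact_mod_cast e2
    · exact_mod_cast e3
    · exact_mod_cast d5.symm
    · push_cast; ring
    · rw [← d1, ← d2, ← d3, ← d4]
      push_cast
      have : ((rd A (P (b + 1)) + rd B (P (b + 2)) + 1 : ℕ) : ℤ) ≤
        ((rd V₁ (P b) + rd V₂ (P b) + rd W₁ (P (b + 1)) + rd W₂ (P (b + 1)) : ℕ) : ℤ) := by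
        exact_mod_cast hlt
      push_cast at this
      linarith

end TAR
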