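import Pool.Agent.TAR.PT

/-! UNIP: the generators are unipotent. -/

open Module

namespace TAR

variable {r : ℕ}

theorem letter_nilpotent (hr : 1 ≤ r) (L : LinRep r) (a : Al r) :
    ∃ N : ℕ, (L.ρ (wd [a])) ^ N = 0 := by
  obtain ⟨N, hN⟩ := L.nil (fun _ => wd [a]) (fun _ => NC_wd [a] (by simp))
  refine ⟨N, ?_⟩
  have h := hN (List.replicate N ⟨0, hr⟩) (by simp)
  have h2 : wp (fun _ : Fin r => (wd [a] : F r)) (List.replicate N ⟨0, hr⟩) = (wd [a]) ^ N := by
    simp [wp]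
  rw [h2, map_pow] at h
  exact h

theorem exists_units (hr : 1 ≤ r) (L : LinRep r) :
    ∃ e : Al r → (Module.End K L.M)ˣ,
      ∀ a, ((e a : (Module.End K L.M)ˣ) : Module.End K L.M) = 1 + L.ρ (wd [a]) := by
  have h : ∀ a : Al r, ∃ u : (Module.End K L.M)ˣ,
      (u : Module.End K L.M) = 1 + L.ρ (wd [a]) := by
    intro a
    obtain ⟨N, hN⟩ := letter_nilpotent hr L a
    have hn : IsNilpotent (L.ρ (wd [a])) := ⟨N, hN⟩
    exact hn.isUnit_one_add
  choose e he using h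
  exact ⟨e, he⟩

end TAR
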