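import Pool.Agent.TAR.RD
import Pool.Agent.TAR.DIMX

/-! VIO: a violator above the family. -/

open Module

namespace TAR

variable {r : ℕ}

private theorem VIO_X {n : ℕ} {V : Submodule K (F r)} (h : V ≤ Fd r n) :
    XM r * V ≤ Fd r (n + 1) := by
  have h1 : Fd r (n + 1) = Fd r 1 * Fd r n := by rw [Fd_mul, add_comm]
  rw [h1]
  exact mul_le_mul' XM_le h

private theorem VIO_Y {n : ℕ} {V : Submodule K (F r)} (h : V ≤ Fd r n) :
    YM r * V ≤ Fd r (n + 1) := by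
  have h1 : Fd r (n + 1) = Fd r 1 * Fd r n := by rw [Fd_mul, add_comm]
  rw [h1]
  exact mul_le_mul' YM_le h

/-- a violator can be taken above the family -/
theorem exists_violator {b : ℕ} {P : ℕ → Submodule K (F r)} (hP : LC3 r b P)
    (hv : ¬ H2 r P b) :
    ∃ V₁ V₂ W₁ W₂ : Submodule K (F r),
      (V₁ ≤ Fd r b ∧ V₂ ≤ Fd r b ∧ W₁ ≤ Fd r (b + 1) ∧ W₂ ≤ Fd r (b + 1)) ∧
      (P b ≤ V₁ ∧ P b ≤ V₂ ∧ P (b + 1) ≤ W₁ ∧ P (b + 1) ≤ W₂) ∧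
      rd (W₁ ⊔ W₂ ⊔ XM r * V₁ ⊔ YM r * V₂) (P (b + 1)) +
        rd (XM r * W₁ ⊔ YM r * W₂) (P (b + 2)) <
      rd V₁ (P b) + rd V₂ (P b) + rd W₁ (P (b + 1)) + rd W₂ (P (b + 1)) := by
  obtain ⟨p0, p1, p2, c0, c1⟩ := hP
  unfold H2 at hv
  push Not at hv
  obtain ⟨V₁, V₂, W₁, W₂, hV₁, hV₂, hW₁, hW₂, h⟩ := hv
  have fV₁ := finiteDimensional_of_le_Fd hV₁
  have fV₂ := finiteDimensional_of_le_Fd hV₂
  have fW₁ := finiteDimensional_of_le_Fd hW₁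
  have fW₂ := finiteDimensional_of_le_Fd hW₂
  have fP0 := finiteDimensional_of_le_Fd p0
  have fP1 := finiteDimensional_of_le_Fd p1
  have fP2 := finiteDimensional_of_le_Fd p2
  have hA : W₁ ⊔ W₂ ⊔ XM r * V₁ ⊔ YM r * V₂ ≤ Fd r (b + 1) :=
    sup_le (sup_le (sup_le hW₁ hW₂) (VIO_X hV₁)) (VIO_Y hV₂)
  have hB : XM r * W₁ ⊔ YM r * W₂ ≤ Fd r (b + 2) := sup_le (VIO_X hW₁) (VIO_Y hW₂)
  have fA := finiteDimensional_of_le_Fd hA
  have fB := finiteDimensional_of_le_Fd hB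
  refine ⟨V₁ ⊔ P b, V₂ ⊔ P b, W₁ ⊔ P (b + 1), W₂ ⊔ P (b + 1),
    ⟨sup_le hV₁ p0, sup_le hV₂ p0, sup_le hW₁ p1, sup_le hW₂ p1⟩,
    ⟨le_sup_right, le_sup_right, le_sup_right, le_sup_right⟩, ?_⟩
  rw [rd_sup_right V₁, rd_sup_right V₂, rd_sup_right W₁, rd_sup_right W₂]
  have hA' : (W₁ ⊔ P (b + 1)) ⊔ (W₂ ⊔ P (b + 1)) ⊔ XM r * (V₁ ⊔ P b) ⊔ YM r * (V₂ ⊔ P b) ≤
      (W₁ ⊔ W₂ ⊔ XM r * V₁ ⊔ YM r * V₂) ⊔ P (b + 1) := by
    rw [Submodule.mul_sup, Submodule.mul_sup]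
    refine sup_le (sup_le (sup_le ?_ ?_) ?_) ?_
    · exact sup_le (le_sup_of_le_left (le_sup_of_le_left (le_sup_of_le_left le_sup_left)))
        le_sup_right
    · exact sup_le (le_sup_of_le_left (le_sup_of_le_left (le_sup_of_le_left le_sup_right)))
        le_sup_right
    · exact sup_le (le_sup_of_le_left (le_sup_of_le_left le_sup_right))
        (le_sup_of_le_right ((mul_le_mul' XM_le le_rfl).trans c0))
    · exact sup_le (le_sup_of_le_left le_sup_right)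
        (le_sup_of_le_right ((mul_le_mul' YM_le le_rfl).trans c0))
  have hB' : XM r * (W₁ ⊔ P (b + 1)) ⊔ YM r * (W₂ ⊔ P (b + 1)) ≤
      (XM r * W₁ ⊔ YM r * W₂) ⊔ P (b + 2) := by
    rw [Submodule.mul_sup, Submodule.mul_sup]
    refine sup_le ?_ ?_
    · exact sup_le (le_sup_of_le_left le_sup_left)
        (le_sup_of_le_right ((mul_le_mul' XM_le le_rfl).trans c1))
    · exact sup_le (le_sup_of_le_left le_sup_right)
        (le_sup_of_le_right ((mul_le_mul' YM_le le_rfl).trans c1))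
  have e1 := rd_mono_left (P (b + 1)) hA'
  have e2 := rd_mono_left (P (b + 2)) hB'
  rw [rd_sup_right] at e1 e2
  omega

end TAR
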